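import Pool.Agent.H88.KN.Targets

/-!
MP_b5bf4a_co, module CC: compatible words have a common cell.
-/

namespace Pool.Agent.H88.KN

open Finset Pool.Agent.H66.GG

theorem wz_neg (M : ℕ) (b : ZMod (2 * M) → Bool) (z : ZMod (2 * M)) :
    wz M (neg b) z = M - wz M b z := by
  have h : wz M (neg b) z + wz M b z = M := by
    unfold wz neg
    rw [← Finset.sum_add_distrib]
    have : ∀ t ∈ range M, ((if (!b (z - 1 - (t : ZMod (2 * M)))) = true then (1 : ℤ) else 0) +
        if b (z - 1 - (t : ZMod (2 * M))) = true then 1 else 0) = 1 := by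
      intro t _
      cases b (z - 1 - (t : ZMod (2 * M))) <;> simp
    rw [Finset.sum_congr rfl this]
    simp
  linarith

theorem wz_shift (M : ℕ) (b : ZMod (2 * M) → Bool) (hb : AntiZ M b) (z : ZMod (2 * M)) :
    wz M b (z + (M : ZMod (2 * M))) = M - wz M b z := by
  rw [← wz_neg]
  unfold wz neg
  refine Finset.sum_congr rfl fun t _ => ?_
  have h : z + (M : ZMod (2 * M)) - 1 - (t : ZMod (2 * M)) =
      (z - 1 - (t : ZMod (2 * M))) + (M : ZMod (2 * M)) := by ring
  rw [h, hb]

theorem cc_count {M : ℕ} (w w' : Fin M → Bool) (i : ℕ) :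
    ((∀ l, w l ≠ w' l → (w l = true ↔ l.val < i)) →
      ((univ.filter (fun l : Fin M => (w l = true ↔ l.val < i))).card : ℤ) -
        ((univ.filter (fun l : Fin M => (w' l = true ↔ l.val < i))).card : ℤ) =
        M - agr w w') ∧
    ((∀ l, w l ≠ w' l → (w l = true ↔ ¬ l.val < i)) →
      ((univ.filter (fun l : Fin M => (w' l = true ↔ l.val < i))).card : ℤ) -
        ((univ.filter (fun l : Fin M => (w l = true ↔ l.val < i))).card : ℤ) =
        M - agr w w') := by
  have hM : (M : ℤ) = ∑ _l : Fin M, (1 : ℤ) := by simp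
  unfold agr
  simp only [Finset.card_filter, Nat.cast_sum, Nat.cast_ite, Nat.cast_one, Nat.cast_zero]
  rw [hM, ← Finset.sum_sub_distrib, ← Finset.sum_sub_distrib, ← Finset.sum_sub_distrib]
  constructor
  · intro h
    refine Finset.sum_congr rfl fun l _ => ?_
    have := h l
    by_cases h1 : l.val < i <;> cases h2 : w l <;> cases h3 : w' l <;> simp_all
  · intro h
    refine Finset.sum_congr rfl fun l _ => ?_
    have := h l
    by_cases h1 : l.val < i <;> cases h2 : w l <;> cases h3 : w' l <;> simp_all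

theorem pf_CC (hWE : T_WE) (hPT : T_PT) (hEA : T_EA) : T_CC := by
  intro M _ w w' h1 h2
  have hD : ∀ l, w l ≠ w' l → w' l = !w l := by
    intro l hl
    cases ha : w l <;> cases hb : w' l <;> simp_all
  obtain ⟨i, hi, h⟩ := hPT M w (univ.filter (fun l => w l ≠ w' l))
    (by
      intro l1 m1 l2 m2 l3 m3 h12 h23 a1 a2 a3
      have e1 := hD l1 (Finset.mem_filter.1 m1).2
      have e2 := hD l2 (Finset.mem_filter.1 m2).2
      have e3 := hD l3 (Finset.mem_filter.1 m3).2
      exact h1 l1 l2 l3 h12 h23 a1 (by rw [e1, a1]; rfl) a2 (by rw [e2, a2]; rfl) a3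
        (by rw [e3, a3]; rfl))
    (by
      intro l1 m1 l2 m2 l3 m3 h12 h23 a1 a2 a3
      have e1 := hD l1 (Finset.mem_filter.1 m1).2
      have e2 := hD l2 (Finset.mem_filter.1 m2).2
      have e3 := hD l3 (Finset.mem_filter.1 m3).2
      exact h2 l1 l2 l3 h12 h23 (by rw [e1, a1]; rfl) a1 (by rw [e2, a2]; rfl) a2
        (by rw [e3, a3]; rfl) a3)
  have hmem : ∀ l, w l ≠ w' l → l ∈ univ.filter (fun l => w l ≠ w' l) := fun l hl =>
    Finset.mem_filter.2 ⟨Finset.mem_univ l, hl⟩
  rcases h with h | h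
  · refine ⟨(i : ZMod (2 * M)), ?_⟩
    have h3 := (cc_count w w' i).1 (fun l hl => h l (hmem l hl))
    rw [wz_neg, hWE M w i hi, hWE M w' i hi]
    linarith
  · refine ⟨(i : ZMod (2 * M)) + (M : ZMod (2 * M)), ?_⟩
    have h3 := (cc_count w w' i).2 (fun l hl => h l (hmem l hl))
    rw [wz_neg, wz_shift M _ (hEA M w), wz_shift M _ (hEA M w'), hWE M w i hi, hWE M w' i hi]
    linarith

end Pool.Agent.H88.KN
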