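import Pool.Agent.H88.KN.Targets

namespace Pool.Agent.H88.KN
open Finset

/-- an increase of `hh` is a step down from `m` (or from `m + 1` if `n` is odd) -/
lemma na_step (n x y : ℕ) (h1 : y ≤ x + 1) (h2 : x ≤ y + 1) (h : hh n x < hh n y) :
    x = y + 1 ∧ ((n % 2 = 0 ∧ x = n / 2) ∨ (n % 2 = 1 ∧ (x = n / 2 ∨ x = n / 2 + 1))) := by
  unfold hh at h
  split_ifs at h <;> first | (exfalso; norm_num at h; done) | (constructor <;> omega) | skip
  all_goals (exfalso; linarith)

lemma na_card {V : Type} [Fintype V] [DecidableEq V] (ρ : V → ℕ) (hi : Function.Injective ρ)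
    (hl : ∀ v, ρ v < Fintype.card V) (m : ℕ) (hm : m ≤ Fintype.card V) :
    (univ.filter (fun v => ρ v < m)).card = m := by
  have himg : univ.image ρ = range (Fintype.card V) := by
    apply Finset.eq_of_subset_of_card_le
    · intro x hx
      obtain ⟨v, _, rfl⟩ := Finset.mem_image.1 hx
      exact Finset.mem_range.2 (hl v)
    · rw [Finset.card_image_of_injective _ hi, Finset.card_univ, Finset.card_range]
  have h2 : (univ.filter (fun v => ρ v < m)).image ρ = range m := by
    ext x
    simp only [Finset.mem_image, Finset.mem_filter, Finset.mem_univ, true_and, Finset.mem_range]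
    constructor
    · rintro ⟨v, hv, rfl⟩; exact hv
    · intro hx
      have hx2 : x ∈ univ.image ρ := by
        rw [himg, Finset.mem_range]; omega
      obtain ⟨v, _, rfl⟩ := Finset.mem_image.1 hx2
      exact ⟨v, hx, rfl⟩
  rw [← Finset.card_image_of_injective _ hi, h2, Finset.card_range]

lemma na_odd {V : Type} [Fintype V] [DecidableEq V] (ρ ρ' : V → ℕ)
    (hi : Function.Injective ρ) (hi' : Function.Injective ρ') (hl : ∀ v, ρ v < Fintype.card V)
    (hl' : ∀ v, ρ' v < Fintype.card V) (h1 : ∀ v, ρ' v ≤ ρ v + 1)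
    (m : ℕ) (hm : m ≤ Fintype.card V) (v w : V) (hv : ρ v = m) (hv' : ρ' v + 1 = m)
    (hw : ρ w = m + 1) (hw' : ρ' w = m) : False := by
  have hc := na_card ρ hi hl m hm
  have hc' := na_card ρ' hi' hl' m hm
  have hne : ¬ (univ.filter (fun z => ρ z < m)) ⊆ (univ.filter (fun z => ρ' z < m)) := by
    intro hsub
    have heq := Finset.eq_of_subset_of_card_le hsub (by rw [hc, hc'])
    have h3 : v ∈ univ.filter (fun z => ρ' z < m) := by
      simp only [Finset.mem_filter, Finset.mem_univ, true_and]; omega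
    rw [← heq] at h3
    simp only [Finset.mem_filter, Finset.mem_univ, true_and] at h3
    omega
  rw [Finset.not_subset] at hne
  obtain ⟨z, hz, hz'⟩ := hne
  simp only [Finset.mem_filter, Finset.mem_univ, true_and] at hz hz'
  have h4 := h1 z
  have h5 : ρ' z = ρ' w := by omega
  have h6 := hi' h5
  subst h6
  omega

theorem pf_NA : T_NA := by
  intro V _ _ ρ ρ' hi hi' hl hl' h1 h2 v w hvw hh2
  obtain ⟨a1, a2⟩ := na_step _ _ _ (h1 v) (h2 v) hh2.1
  obtain ⟨b1, b2⟩ := na_step _ _ _ (h1 w) (h2 w) hh2.2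
  set n := Fintype.card V with hn
  have hne : ρ v ≠ ρ w := fun h => hvw (hi h)
  have hm : n / 2 ≤ Fintype.card V := by rw [← hn]; omega
  rcases a2 with ⟨a2, a3⟩ | ⟨a2, a3 | a3⟩ <;> rcases b2 with ⟨b2, b3⟩ | ⟨b2, b3 | b3⟩
  all_goals try omega
  · exact na_odd ρ ρ' hi hi' hl hl' h1 (n / 2) hm v w a3 (by omega) b3 (by omega)
  · exact na_odd ρ ρ' hi hi' hl hl' h1 (n / 2) hm w v b3 (by omega) a3 (by omega)

end Pool.Agent.H88.KN
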