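import Pool.Agent.H88.KN.XV
import Pool.Agent.H88.KN.NA
import Pool.Agent.H33.KN.ND

/-!
MP_b5bf4a_co, dense range: nodes for an odd number of points (helper88).
-/

namespace Pool.Agent.H88.KN

open Finset Pool.Agent.H66.GG

/-- if a prefix changes then some vertex leaves it -/
lemma exists_leaving {V : Type} [Fintype V] [DecidableEq V] {ρ ρ' : V → ℕ}
    (hi : Function.Injective ρ) (hi' : Function.Injective ρ') (hl : ∀ v, ρ v < Fintype.card V)
    (hl' : ∀ v, ρ' v < Fintype.card V) {m : ℕ} (hm : m ≤ Fintype.card V)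
    (hne : ¬ ∀ v, (ρ v < m ↔ ρ' v < m)) : ∃ v, ρ v < m ∧ m ≤ ρ' v := by
  by_contra hcon
  push Not at hcon
  apply hne
  have hsub : (univ.filter (fun z => ρ z < m)) ⊆ (univ.filter (fun z => ρ' z < m)) := by
    intro z hz
    simp only [mem_filter, mem_univ, true_and] at hz ⊢
    exact hcon z hz
  have heq := Finset.eq_of_subset_of_card_le hsub (by
    rw [na_card ρ hi hl m hm, na_card ρ' hi' hl' m hm])
  intro v
  have := congrArg (fun A => v ∈ A) heq
  simpa using this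

lemma exists_entering {V : Type} [Fintype V] [DecidableEq V] {ρ ρ' : V → ℕ}
    (hi : Function.Injective ρ) (hi' : Function.Injective ρ') (hl : ∀ v, ρ v < Fintype.card V)
    (hl' : ∀ v, ρ' v < Fintype.card V) {m : ℕ} (hm : m ≤ Fintype.card V)
    (hne : ¬ ∀ v, (ρ v < m ↔ ρ' v < m)) : ∃ v, m ≤ ρ v ∧ ρ' v < m := by
  obtain ⟨v, h1, h2⟩ := exists_leaving hi' hi hl' hl hm (fun h => hne (fun v => (h v).symm))
  exact ⟨v, h2, h1⟩

/-- one of two consecutive prefixes does not change -/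
lemma prefix_alt {V : Type} [Fintype V] [DecidableEq V] {ρ ρ' : V → ℕ}
    (hi : Function.Injective ρ) (hi' : Function.Injective ρ') (hl : ∀ v, ρ v < Fintype.card V)
    (hl' : ∀ v, ρ' v < Fintype.card V) (h1 : ∀ v, ρ' v ≤ ρ v + 1) (h2 : ∀ v, ρ v ≤ ρ' v + 1)
    {m : ℕ} (hm : m + 1 ≤ Fintype.card V) (hne : ¬ ∀ v, (ρ v < m ↔ ρ' v < m)) :
    ∀ v, (ρ v < m + 1 ↔ ρ' v < m + 1) := by
  by_contra hne'
  obtain ⟨w, w1, w2⟩ := exists_leaving hi hi' hl hl' (by omega) hne
  obtain ⟨v, v1, v2⟩ := exists_entering hi hi' hl hl' hm hne'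
  have a1 := h1 w
  have a2 := h2 v
  have : w = v := hi' (by omega)
  subst this
  omega

open Classical in
/-- sizes of the prefixes along the path -/
noncomputable def sz {V : Type} (m N : ℕ) (ρ : ℕ → V → ℕ) : ℕ → ℕ
  | 0 => m
  | τ + 1 => if τ < N ∧ ∀ v, (ρ τ v < m ↔ ρ (τ + 1) v < m) then m else m + 1

lemma sz_pos {V : Type} {m N : ℕ} {ρ : ℕ → V → ℕ} {τ : ℕ}
    (h : τ < N ∧ ∀ v, (ρ τ v < m ↔ ρ (τ + 1) v < m)) : sz m N ρ (τ + 1) = m := by
  classical
  exact if_pos h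

lemma sz_neg {V : Type} {m N : ℕ} {ρ : ℕ → V → ℕ} {τ : ℕ}
    (h : ¬ (τ < N ∧ ∀ v, (ρ τ v < m ↔ ρ (τ + 1) v < m))) : sz m N ρ (τ + 1) = m + 1 := by
  classical
  exact if_neg h

/-- indicator of the current prefix -/
noncomputable def nu {V : Type} (m N : ℕ) (ρ : ℕ → V → ℕ) (τ : ℕ) (v : V) : ℝ :=
  if ρ (min τ N) v < sz m N ρ τ then 1 else 0

/-- sum of a three-valued profile -/
lemma prof_sum (m : ℕ) (a c : ℝ) (g : ℕ → ℝ) (h1 : ∀ i < m, g i = a) (h2 : g m = c)
    (h3 : ∀ i, m < i → g i = 0) : ∑ i ∈ range (2 * m + 1), g i = m * a + c := by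
  have e : 2 * m + 1 = m + 1 + m := by omega
  rw [e, Finset.sum_range_add, Finset.sum_range_succ, h2]
  have e1 : ∑ i ∈ range m, g i = m * a := by
    rw [Finset.sum_congr rfl (fun i hi => h1 i (Finset.mem_range.1 hi))]
    simp
  have e2 : ∑ i ∈ range m, g (m + 1 + i) = 0 :=
    Finset.sum_eq_zero (fun i _ => h3 _ (by omega))
  rw [e1, e2, add_zero]

theorem exists_nodeSeq_odd {V : Type} [Fintype V] [DecidableEq V] {rel : V → V → Prop}
    (hNC : T_NC) {K N : ℕ} {ρ : ℕ → V → ℕ} (hρ : RankSeq N ρ)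
    (hK : ∀ τ ≤ N, ∀ m : ℕ, ∀ S : Finset V, (∀ v, v ∈ S ↔ ρ τ v < m) → cut rel S ≤ K)
    (hodd : Fintype.card V % 2 = 1) :
    ∃ H : ℕ, 1 ≤ H ∧ ∃ ν : ℕ → V → ℝ, NodeSeq rel K H ν ∧ VarLe (1 / 4) H ν := by
  classical
  set m := Fintype.card V / 2 with hm
  have hn : Fintype.card V = 2 * m + 1 := by omega
  -- sizes
  set s : ℕ → ℕ := sz m N ρ with hs
  have s0 : s 0 = m := rfl
  have s1 : ∀ τ, s (τ + 1) = if τ < N ∧ ∀ v, (ρ τ v < m ↔ ρ (τ + 1) v < m) then m else m + 1 := by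
    intro τ
    by_cases h : τ < N ∧ ∀ v, (ρ τ v < m ↔ ρ (τ + 1) v < m)
    · rw [if_pos h]
      exact sz_pos h
    · rw [if_neg h]
      exact sz_neg h
  have sN : s (N + 1) = m + 1 := by
    rw [s1, if_neg]
    rintro ⟨h, _⟩
    exact lt_irrefl _ h
  have sor : ∀ τ, s τ = m ∨ s τ = m + 1 := by
    intro τ
    cases τ with
    | zero => exact Or.inl s0
    | succ τ =>
      rw [s1]
      split_ifs
      · exact Or.inl rfl
      · exact Or.inr rfl
  set ν : ℕ → V → ℝ := nu m N ρ with hνd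
  have hν : ∀ τ v, ν τ v = if ρ (min τ N) v < s τ then 1 else 0 := fun _ _ => rfl
  -- the key identity
  have hnext : ∀ τ ≤ N, ∀ v, ν (τ + 1) v = if ρ τ v < s (τ + 1) then 1 else 0 := by
    intro τ hτ v
    rw [hν]
    rcases Nat.lt_or_ge τ N with h | h
    · rw [min_eq_left (by omega : τ + 1 ≤ N)]
      have key : ∀ v, (ρ τ v < s (τ + 1) ↔ ρ (τ + 1) v < s (τ + 1)) := by
        by_cases hc : ∀ v, (ρ τ v < m ↔ ρ (τ + 1) v < m)
        · rw [s1, if_pos ⟨h, hc⟩]
          exact hc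
        · rw [s1, if_neg (fun k => hc k.2)]
          exact prefix_alt (hρ.inj τ hτ) (hρ.inj (τ + 1) h) (hρ.lt τ hτ) (hρ.lt (τ + 1) h)
            (hρ.up τ h) (hρ.down τ h) (by omega) hc
      by_cases k : ρ τ v < s (τ + 1)
      · rw [if_pos k, if_pos ((key v).1 k)]
      · rw [if_neg k, if_neg (fun k' => k ((key v).2 k'))]
    · have : τ = N := le_antisymm hτ h
      subst this
      rw [min_eq_right (by omega : τ ≤ τ + 1)]
  have hcur : ∀ τ ≤ N, ∀ v, ν τ v = if ρ τ v < s τ then 1 else 0 := by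
    intro τ hτ v
    rw [hν, min_eq_left hτ]
  -- both nodes of a segment in terms of one profile
  have hprof : ∀ τ ≤ N, ∀ v, (ρ τ v < m → ν τ v = 1 ∧ ν (τ + 1) v = 1) ∧
      (m < ρ τ v → ν τ v = 0 ∧ ν (τ + 1) v = 0) := by
    intro τ hτ v
    rw [hcur τ hτ, hnext τ hτ]
    have a1 := sor τ
    have a2 := sor (τ + 1)
    constructor
    · intro h
      rw [if_pos (by omega), if_pos (by omega)]
      exact ⟨rfl, rfl⟩
    · intro h
      rw [if_neg (by omega), if_neg (by omega)]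
      exact ⟨rfl, rfl⟩
  have hvar : ∀ τ ≤ N, ∀ q : ℝ, (∑ v, ((1 - q) * ν τ v + q * ν (τ + 1) v) -
      (Fintype.card V : ℝ) / 2) ^ 2 + ∑ v, ((1 - q) * ν τ v + q * ν (τ + 1) v) *
        (1 - ((1 - q) * ν τ v + q * ν (τ + 1) v)) = 1 / 4 := by
    intro τ hτ q
    set c : ℝ := (1 - q) * (if m < s τ then 1 else 0) + q * (if m < s (τ + 1) then 1 else 0)
      with hc
    set g : ℕ → ℝ := fun i => if i < m then 1 else if i = m then c else 0 with hg
    have e : ∀ v, (1 - q) * ν τ v + q * ν (τ + 1) v = g (ρ τ v) := by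
      intro v
      rcases lt_trichotomy (ρ τ v) m with h | h | h
      · obtain ⟨b1, b2⟩ := (hprof τ hτ v).1 h
        simp only [hg]
        rw [b1, b2, if_pos h]
        ring
      · rw [hcur τ hτ, hnext τ hτ]
        simp only [hg]
        rw [h, if_neg (lt_irrefl _), if_pos rfl]
      · obtain ⟨b1, b2⟩ := (hprof τ hτ v).2 h
        simp only [hg]
        rw [b1, b2, if_neg (by omega), if_neg (by omega)]
        ring
    simp only [e]
    have s1 := Pool.Agent.H33.KN.ND_sum (ρ τ) (hρ.inj τ hτ) (hρ.lt τ hτ) g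
    have s2 := Pool.Agent.H33.KN.ND_sum (ρ τ) (hρ.inj τ hτ) (hρ.lt τ hτ)
      (fun i => g i * (1 - g i))
    rw [hn] at s1 s2
    rw [prof_sum m 1 c g (fun i hi => by simp only [hg]; rw [if_pos hi])
      (by simp only [hg]; rw [if_neg (lt_irrefl _)]; simp)
      (fun i hi => by simp only [hg]; rw [if_neg (by omega), if_neg (by omega)])] at s1
    rw [prof_sum m 0 (c * (1 - c)) (fun i => g i * (1 - g i))
      (fun i hi => by simp only [hg]; rw [if_pos hi]; norm_num)
      (by simp only [hg]; rw [if_neg (lt_irrefl _)]; simp)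
      (fun i hi => by simp only [hg]; rw [if_neg (by omega), if_neg (by omega)]; norm_num)] at s2
    rw [s1, s2, hn]
    push_cast
    ring
  refine ⟨N + 1, by omega, ν, ⟨?_, ?_, ?_, ?_, ?_, ?_, ?_, ?_⟩, ?_⟩
  · -- first
    intro v
    rw [hν]
    split_ifs
    · exact Or.inr rfl
    · exact Or.inl rfl
  · -- last
    intro v
    rw [hnext N le_rfl, hcur 0 (Nat.zero_le _), sN, s0]
    have := hρ.last v
    by_cases h : ρ 0 v < m
    · rw [if_pos h, if_neg (by omega)]; norm_num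
    · rw [if_neg h, if_pos (by omega)]; norm_num
  · -- vals
    intro τ _ v
    rw [hν]
    split_ifs
    · exact Or.inr (Or.inr rfl)
    · exact Or.inl rfl
  · -- half
    intro τ _ v w _ h
    exfalso
    rw [hν] at h
    split_ifs at h <;> norm_num at h
  · -- seg
    intro τ hτ v w hvw
    have hτ' : τ ≤ N := by omega
    have hmed : ∀ v, ν τ v ≠ ν (τ + 1) v → ρ τ v = m := by
      intro v h
      by_contra hne
      rcases Nat.lt_or_gt_of_ne hne with k | k
      · obtain ⟨b1, b2⟩ := (hprof τ hτ' v).1 k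
        exact h (b1.trans b2.symm)
      · obtain ⟨b1, b2⟩ := (hprof τ hτ' v).2 k
        exact h (b1.trans b2.symm)
    constructor
    · rintro ⟨h1, h2⟩
      exact hvw (hρ.inj τ hτ' ((hmed v h1.ne).trans (hmed w h2.ne).symm))
    · rintro ⟨h1, h2⟩
      exact hvw (hρ.inj τ hτ' ((hmed v h1.ne').trans (hmed w h2.ne').symm))
  · -- cut
    intro τ _
    rw [hNC V rel (univ.filter (fun v => ρ (min τ N) v < s τ)) (ν τ) (fun v => by simp [hν])]
    exact_mod_cast hK (min τ N) (min_le_right _ _) (s τ) _ (fun v => by simp)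
  · -- var ≤ 1/2
    intro τ hτ q _ _
    rw [hvar τ (by omega) q]
    norm_num
  · -- order
    intro v w hvw τ1 τ2 τ3 h12 h23 h3 hcon
    obtain ⟨c1, c2, c3⟩ := hcon
    have hlt : ∀ τ v w, ν τ w < ν τ v → ρ (min τ N) v < ρ (min τ N) w := by
      intro τ v w h
      rw [hν, hν] at h
      by_contra hge
      by_cases k : ρ (min τ N) v < s τ
      · rw [if_pos (by omega : ρ (min τ N) w < s τ)] at h
        split_ifs at h
        norm_num at h
      · rw [if_neg k] at h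
        split_ifs at h <;> norm_num at h
    have d1 := hlt τ1 v w c1
    have d2 := hlt τ2 w v c2
    have d3 := hlt τ3 v w c3
    have e1 : min τ1 N ≤ min τ2 N := min_le_min_right _ h12.le
    have e2 : min τ2 N ≤ min τ3 N := min_le_min_right _ h23.le
    rcases Nat.eq_or_lt_of_le e1 with f1 | f1
    · rw [f1] at d1; omega
    · rcases Nat.eq_or_lt_of_le e2 with f2 | f2
      · rw [f2] at d2; omega
      · exact hρ.order v w _ _ _ f1 f2 (min_le_right _ _) ⟨d1, d2, d3⟩
  · -- variance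
    intro τ hτ q _ _
    rw [hvar τ (by omega) q]

end Pool.Agent.H88.KN
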