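import Pool.Agent.H88.KN.PB
import Pool.Agent.H88.KN.NO

/-!
MP_b5bf4a_co, dense range: from the geometric bound to `f(n,k)` (helper88).
-/

namespace Pool.Agent.H88.KN

open Finset Pool.Agent.H66.GG

/-- the module statements used at the end -/
structure Mods : Prop where
  sm : T_SM
  pl : T_PL
  wb : T_WB
  ly : T_LY
  eq : T_EQ
  ea : T_EA
  rs : T_RS
  ns : T_NS
  nc : T_NC
  xa : T_XA
  xd : T_XD
  xc : T_XC
  nb : T_NB

/-- the geometric bound -/
theorem dense_bound_var (H : Mods) {V : Type} [Fintype V] [DecidableEq V] {rel : V → V → Prop}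
    (hsym : ∀ v w, rel v w → rel w v) (hirr : ∀ v, ¬ rel v v) {x y : V → ℝ} (G : GenPos x y)
    {K : ℕ} (hK : ∀ S, IsSplit x y S → cut rel S ≤ K) (M r : ℕ) (hM : 1 ≤ M) (h1 : M ≤ 2 * r)
    (h2 : r ≤ M) :
    (e2 rel univ : ℝ) * r ≤ 2 * M * K + (Fintype.card V : ℝ) ^ 2 * r ^ 2 / (2 * M) -
      Fintype.card V * r + 2 * (1 / 2 - ((Fintype.card V % 2 : ℕ) : ℝ) / 4) * M := by
  obtain ⟨N, ρ, hρ, hs⟩ := H.rs V x y G
  have hK' : ∀ τ ≤ N, ∀ m : ℕ, ∀ S : Finset V, (∀ v, v ∈ S ↔ ρ τ v < m) → cut rel S ≤ K :=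
    fun τ hτ m S hS => hK S (hs τ hτ m S hS)
  rcases Nat.mod_two_eq_zero_or_one (Fintype.card V) with h | h
  · obtain ⟨H', hH, ν, hν⟩ := H.ns V rel hirr K N ρ hρ hK'
    obtain ⟨lam, hlam, hvar⟩ := exists_path_var H.xa H.xd H.xc H.nb hirr hH hν
      (κ := 1 / 2) (fun τ hτ s h0 h1 => hν.var τ hτ s h0 h1)
    rw [h, Nat.cast_zero]
    have := path_bound_var H.sm H.pl H.wb H.ly H.eq H.ea rel hsym hirr M r hM h1 h2 K (1 / 2)
      lam hlam hvar
    linarith
  · obtain ⟨H', hH, ν, hν, hvr⟩ := exists_nodeSeq_odd H.nc hρ hK' h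
    obtain ⟨lam, hlam, hvar⟩ := exists_path_var H.xa H.xd H.xc H.nb hirr hH hν hvr
    rw [h, Nat.cast_one]
    have := path_bound_var H.sm H.pl H.wb H.ly H.eq H.ea rel hsym hirr M r hM h1 h2 K (1 / 4)
      lam hlam hvar
    linarith

/-- the constant -/
noncomputable def kap (n : ℕ) : ℝ := 1 / 2 - ((n % 2 : ℕ) : ℝ) / 4

lemma kap_pos (n : ℕ) : 1 / 4 ≤ kap n ∧ kap n ≤ 1 / 2 := by
  unfold kap
  rcases Nat.mod_two_eq_zero_or_one n with h | h <;> rw [h] <;> norm_num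

lemma forces_dense (H : Mods) {n k e M r : ℕ}
    (hk : 1 ≤ k) (hM : 1 ≤ M) (h1 : M ≤ 2 * r) (h2 : r ≤ M)
    (h : (4 : ℝ) * M ^ 2 * ((k : ℝ) - 1) + (n : ℝ) ^ 2 * r ^ 2 + 4 * kap n * M ^ 2 <
      4 * M * r * e + 2 * M * n * r) : Forces n k e := by
  classical
  intro p hp G hG
  by_contra hcon
  push Not at hcon
  obtain ⟨x, y, hxy, hsp⟩ := exists_shear p hp
  have hsym : ∀ v w, G.Adj v w → G.Adj w v := fun _ _ h => h.symm
  have hirr : ∀ v, ¬ G.Adj v v := fun v h => h.ne rfl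
  have hK : ∀ S, IsSplit x y S → cut G.Adj S ≤ k - 1 := by
    intro S hS
    rcases Nat.eq_zero_or_pos (cut G.Adj S) with h | h
    · omega
    · obtain ⟨L, hL, h2⟩ := cut_le_met p G S (hsp S hS) h
      have := hcon L hL
      omega
  have key := dense_bound_var H hsym hirr hxy hK M r hM h1 h2
  rw [e2_univ, Fintype.card_fin, Nat.cast_sub hk] at key
  change _ ≤ _ + 2 * kap n * (M : ℝ) at key
  push_cast at key
  have hMpos : (0 : ℝ) < M := by exact_mod_cast hM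
  have hrpos : (0 : ℝ) < r := by
    have : 1 ≤ r := by omega
    exact_mod_cast this
  have hGe : (e : ℝ) ≤ G.edgeSet.ncard := by exact_mod_cast hG
  have key2 : (2 * (G.edgeSet.ncard : ℝ) * r) * (2 * M) ≤
      (2 * M * ((k : ℝ) - 1) + (n : ℝ) ^ 2 * r ^ 2 / (2 * M) - n * r + 2 * kap n * M) *
        (2 * M) :=
    mul_le_mul_of_nonneg_right key (by positivity)
  have e1 : (2 * M * ((k : ℝ) - 1) + (n : ℝ) ^ 2 * r ^ 2 / (2 * M) - n * r + 2 * kap n * M) *
      (2 * M) = 4 * M ^ 2 * ((k : ℝ) - 1) + (n : ℝ) ^ 2 * r ^ 2 + 4 * kap n * M ^ 2 -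
        2 * M * n * r := by
    field_simp
    ring
  rw [e1] at key2
  have e2 : 4 * (M : ℝ) * r * e ≤ (2 * (G.edgeSet.ncard : ℝ) * r) * (2 * M) := by
    have : (2 * (G.edgeSet.ncard : ℝ) * r) * (2 * M) = 4 * (M : ℝ) * r * G.edgeSet.ncard := by
      ring
    rw [this]
    exact mul_le_mul_of_nonneg_left hGe (by positivity)
  linarith

lemma forces_t (H : Mods) {n k e : ℕ} (hk : 1 ≤ k) (hn : 1 ≤ n) (t : ℝ)
    (h1 : (n : ℝ) / 2 ≤ t) (h2 : t ≤ n)
    (h : (n : ℝ) * (((k : ℝ) - 1 + kap n) / t + t / 4 - 1 / 2) < e) : Forces n k e := by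
  have hk' : (1 : ℝ) ≤ k := by exact_mod_cast hk
  obtain ⟨kp1, kp2⟩ := kap_pos n
  set c := (k : ℝ) - 1 + kap n with hc
  have hcpos : 0 < c := by rw [hc]; linarith
  have hnpos : (0 : ℝ) < n := by exact_mod_cast hn
  have htpos : 0 < t := by linarith
  set δ := (e : ℝ) - n * (c / t + t / 4 - 1 / 2) with hδ
  have hδpos : 0 < δ := by rw [hδ]; linarith
  obtain ⟨M, hM⟩ := exists_nat_gt ((n : ℝ) ^ 2 / (4 * δ))
  have hMpos : (0 : ℝ) < M := lt_of_le_of_lt (by positivity) hM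
  have hM1 : 1 ≤ M := by exact_mod_cast hMpos
  set r := ⌈t / n * M⌉₊ with hr
  have r1 : t / n * M ≤ r := Nat.le_ceil _
  have r2 : (r : ℝ) < t / n * M + 1 := Nat.ceil_lt_add_one (by positivity)
  have r3 : r ≤ M := by
    rw [hr]
    apply Nat.ceil_le.2
    have : t / n ≤ 1 := by rw [div_le_one hnpos]; exact h2
    calc t / n * M ≤ 1 * M := mul_le_mul_of_nonneg_right this hMpos.le
      _ = M := one_mul _
  have r4 : M ≤ 2 * r := by
    have : (M : ℝ) ≤ 2 * r := by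
      have h3 : 1 / 2 ≤ t / n := by
        rw [div_le_div_iff₀ (by norm_num) hnpos]
        linarith
      have h4 : 1 / 2 * (M : ℝ) ≤ t / n * M := mul_le_mul_of_nonneg_right h3 hMpos.le
      linarith
    exact_mod_cast this
  have hrpos : (0 : ℝ) < r := lt_of_lt_of_le (by positivity) r1
  refine forces_dense H hk hM1 r4 r3 ?_
  have c1 : t * M ≤ n * r := by
    have := mul_le_mul_of_nonneg_left r1 hnpos.le
    have e : (n : ℝ) * (t / n * M) = t * M := by field_simp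
    linarith
  have c2 : (n : ℝ) * r < t * M + n := by
    have := mul_lt_mul_of_pos_left r2 hnpos
    have e : (n : ℝ) * (t / n * M + 1) = t * M + n := by field_simp
    linarith
  have c3 : (n : ℝ) ^ 2 < 4 * δ * M := by
    have := (div_lt_iff₀ (by positivity : (0 : ℝ) < 4 * δ)).1 hM
    linarith
  have e1 : (e : ℝ) = δ + n * (c / t + t / 4 - 1 / 2) := by rw [hδ]; ring
  have c4 : (4 : ℝ) * M ^ 2 * ((k : ℝ) - 1) + (n : ℝ) ^ 2 * r ^ 2 + 4 * kap n * M ^ 2 =
      4 * M * c * M + (n * r) * (n * r) := by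
    rw [hc]; ring
  have c5 : 4 * (M : ℝ) * r * e + 2 * M * n * r =
      4 * δ * M * r + 4 * M * c * (n * r / t) + (n * r) * (t * M) := by
    rw [e1]; ring
  rw [c4, c5]
  have c6 : (M : ℝ) ≤ n * r / t := by
    rw [le_div_iff₀ htpos]
    linarith
  have c7 : 4 * M * c * M ≤ 4 * M * c * (n * r / t) :=
    mul_le_mul_of_nonneg_left c6 (by positivity)
  have c8 : (n * r : ℝ) * (n * r) < (n * r) * (t * M) + (n : ℝ) ^ 2 * r := by
    have := mul_lt_mul_of_pos_left c2 (mul_pos hnpos hrpos)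
    have e : (n * r : ℝ) * (t * M + n) = (n * r) * (t * M) + (n : ℝ) ^ 2 * r := by ring
    linarith
  have c9 : (n : ℝ) ^ 2 * r < 4 * δ * M * r := mul_lt_mul_of_pos_right c3 hrpos
  linarith

theorem dense_range (H : Mods) {D u ε n k : ℕ}
    (hD : 1 ≤ D) (hu : u < D) (hε : ε ≤ 1) (hk : k = D * (D - 1) + 2 * u + ε + 1)
    (hn : 2 * D + 1 ≤ n) :
    ∃ v, IsLeast (FSet n k) v ∧ (D - 1) * n + n * u / D + ε + 1 ≤ v ∧
      (n ≤ 4 * D → v ≤ (D - 1) * n + (8 * u + 4 * ε + 2 - n % 2) * n / (8 * D) + 1) ∧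
      ∀ t : ℝ, (n : ℝ) / 2 ≤ t → t ≤ n →
        (v : ℝ) ≤ n * (((k : ℝ) - 1 / 2 - ((n % 2 : ℕ) : ℝ) / 4) / t + t / 4 - 1 / 2) + 1 := by
  classical
  have hk1 : 1 ≤ k := by omega
  have hfull : Forces n k (n.choose 2) := by
    rw [hk]
    exact full_forces hD hu hε (Or.inl hn)
  have hlow : ∀ e, Forces n k e → (D - 1) * n + n * u / D + ε + 1 ≤ e := by
    intro e he
    by_contra hcon
    rw [hk] at he
    exact not_forces hD hu hε (Or.inl hn) e (by omega) he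
  have hex : ∃ e, Forces n k e := ⟨_, hfull⟩
  have hDpos : (0 : ℝ) < D := by exact_mod_cast hD
  have hnpos : (0 : ℝ) < n := by
    have : 0 < n := by omega
    exact_mod_cast this
  have hkr : (k : ℝ) = D * (D - 1) + 2 * u + ε + 1 := by
    rw [hk]
    push_cast [Nat.cast_sub hD]
    ring
  have up1 : n ≤ 4 * D →
      Forces n k ((D - 1) * n + (8 * u + 4 * ε + 2 - n % 2) * n / (8 * D) + 1) := by
    intro hn4
    refine forces_dense H (M := n) (r := 2 * D) hk1 (by omega) (by omega)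
      (by omega) ?_
    set p := 8 * u + 4 * ε + 2 - n % 2 with hp
    set q := p * n / (8 * D) with hq
    have hpr : (p : ℝ) = 8 * u + 4 * ε + 4 * kap n := by
      unfold kap
      rcases Nat.mod_two_eq_zero_or_one n with h | h
      · rw [hp, h]; push_cast; ring
      · rw [hp, h]
        have : 8 * u + 4 * ε + 2 - 1 = 8 * u + 4 * ε + 1 := by omega
        rw [this]; push_cast; ring
    have hlt : p * n < (q + 1) * (8 * D) := by
      have := Nat.lt_mul_div_succ (p * n) (by omega : 0 < 8 * D)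
      rw [← hq] at this
      rw [mul_comm (q + 1)]
      exact this
    have hlt' : (p * n : ℝ) < (q + 1) * (8 * D) := by exact_mod_cast hlt
    rw [hkr]
    push_cast [Nat.cast_sub hD]
    rw [hpr] at hlt'
    have e1 : 4 * (n : ℝ) ^ 2 * (↑D * (↑D - 1) + 2 * ↑u + ↑ε + 1 - 1) + ↑n ^ 2 * (2 * ↑D) ^ 2 +
        4 * kap n * ↑n ^ 2 = n * ((8 * u + 4 * ε + 4 * kap n) * n) +
          n ^ 2 * (8 * D * D - 4 * D) := by ring
    have e2 : 4 * (n : ℝ) * (2 * ↑D) * ((↑D - 1) * ↑n + ↑q + 1) + 2 * ↑n * ↑n * (2 * ↑D) =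
        n * ((q + 1) * (8 * D)) + n ^ 2 * (8 * D * D - 4 * D) := by ring
    rw [e1, e2]
    have := mul_lt_mul_of_pos_left hlt' hnpos
    linarith
  refine ⟨Nat.find hex, ⟨⟨Nat.find_min' hex hfull, Nat.find_spec hex⟩,
    fun e he => Nat.find_min' hex he.2⟩, hlow _ (Nat.find_spec hex), ?_, ?_⟩
  · intro hn4
    exact Nat.find_min' hex (up1 hn4)
  · intro t ht1 ht2
    by_contra hcon
    push Not at hcon
    set v := Nat.find hex with hv
    have hv1 : 1 ≤ v := le_trans (Nat.le_add_left 1 _) (hlow _ (Nat.find_spec hex))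
    have hkap : (k : ℝ) - 1 / 2 - ((n % 2 : ℕ) : ℝ) / 4 = (k : ℝ) - 1 + kap n := by
      unfold kap; ring
    rw [hkap] at hcon
    have h3 : (n : ℝ) * (((k : ℝ) - 1 + kap n) / t + t / 4 - 1 / 2) < ((v - 1 : ℕ) : ℝ) := by
      rw [Nat.cast_sub hv1, Nat.cast_one]
      linarith
    exact Nat.find_min hex (show v - 1 < Nat.find hex by omega)
      (forces_t H hk1 (by omega) t ht1 ht2 h3)

end Pool.Agent.H88.KN
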