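import Pool.Agent.H88.KN.Targets

/-!
MP_b5bf4a_co, dense range: module IM (helper53), existence of the measure.
-/

namespace Pool.Agent.H88.KN

open Finset

private lemma divt (a : ℤ → ℤ) (h : ∀ i, a (i + 1) = a i + 1 ∨ a (i + 1) = a i - 1) (r : ℤ)
    (n : ℕ) : ∀ s : ℤ, r ≤ a s → a (s + n) ≤ r → ∃ i, a i = r := by
  induction n with
  | zero =>
    intro s h1 h2
    simp only [Nat.cast_zero, add_zero] at h2
    exact ⟨s, le_antisymm h2 h1⟩
  | succ n ih =>
    intro s h1 h2
    rcases eq_or_lt_of_le h1 with h3 | h3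
    · exact ⟨s, h3.symm⟩
    · refine ih (s + 1) ?_ ?_
      · rcases h s with h4 | h4 <;> omega
      · have : s + 1 + (n : ℤ) = s + ((n + 1 : ℕ) : ℤ) := by push_cast; ring
        rw [this]; exact h2

theorem pf_IM (hWS : T_WS) (hWA : T_WA) (hUC : T_UC) (hPK : T_PK) (hTG : T_TG) : T_IM := by
  intro M _ r hMr hrM b hb
  classical
  set b' : ℤ → Bool := fun l => b (l : ZMod (2 * M)) with hb'
  have hanti : Anti M b' := by
    intro l
    simp only [hb']
    push_cast
    exact hb _
  have hwz : ∀ i : ℤ, wz M b (i : ZMod (2 * M)) = wk M b' i := by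
    intro i
    unfold wz wk
    refine Finset.sum_congr rfl fun t _ => ?_
    simp only [hb']
    push_cast
    rfl
  have hws := hWS M b' hanti
  have hstep : ∀ i, wk M b' (i + 1) = wk M b' i + 1 ∨ wk M b' (i + 1) = wk M b' i - 1 := by
    intro i
    rw [hws i]
    by_cases h : b' i = true
    · left; simp [h]
    · right; simp [h]; ring
  have hup : ∀ i, wk M b' i < wk M b' (i + 1) ↔ b' i = true := by
    intro i
    rw [hws i]
    by_cases h : b' i = true <;> simp [h]
  have hdown : ∀ i, wk M b' (i + 1) < wk M b' i ↔ b' i = false := by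
    intro i
    rw [hws i]
    by_cases h : b' i = true <;> simp [h]
  have hcast : ∀ x : ZMod (2 * M), (((x.val : ℕ) : ℤ) : ZMod (2 * M)) = x := by
    intro x
    rw [Int.cast_natCast, ZMod.natCast_zmod_val]
  by_cases hall : ∀ i : ℤ, wk M b' i ≤ r
  · refine ⟨fun _ => 0, fun _ => le_refl _, by simp, fun z hz => absurd rfl hz, ?_⟩
    intro x
    have h1 := hall (x.val : ℤ)
    rw [← hwz, hcast] at h1
    have h2 : (wz M b x : ℝ) ≤ r := by exact_mod_cast h1
    simp only [zero_mul, Finset.sum_const_zero]
    linarith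
  · push Not at hall
    obtain ⟨x0, hx0⟩ := hall
    have hle : wk M b' x0 ≤ M := by
      unfold wk
      calc ∑ t ∈ range M, (if b' (x0 - 1 - t) = true then (1 : ℤ) else 0)
          ≤ ∑ t ∈ range M, (1 : ℤ) := by
            refine Finset.sum_le_sum fun t _ => ?_
            split_ifs <;> norm_num
        _ = M := by simp
    have hrM' : r < M := by
      have : (r : ℤ) < M := lt_of_lt_of_le hx0 hle
      exact_mod_cast this
    obtain ⟨i0, hi0⟩ := divt (wk M b') hstep r M x0 hx0.le (by
      rw [hWA M b' hanti x0]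
      have : (M : ℤ) ≤ 2 * r := by exact_mod_cast hMr
      omega)
    have hi1 : wk M b' (i0 + 2 * M) = r := by
      have h1 := hWA M b' hanti (i0 + M)
      have h2 := hWA M b' hanti i0
      have h3 : i0 + (M : ℤ) + M = i0 + 2 * M := by ring
      rw [h3] at h1
      rw [h1, h2, hi0]; ring
    have hj : 0 < M - r := by omega
    have hMpos : 0 < M := by omega
    have hcard : ((Finset.Ico i0 (i0 + 2 * M)).filter
        (fun i => wk M b' i < wk M b' (i + 1) ∧ (r : ℤ) ≤ wk M b' i)).card ≤ M - r := by
      have h1 := hUC M r hMr hrM b' hanti i0 hi0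
      have h2 : (Finset.Ico i0 (i0 + 2 * M)).filter
          (fun i => wk M b' i < wk M b' (i + 1) ∧ (r : ℤ) ≤ wk M b' i) =
          (Finset.Ico i0 (i0 + 2 * M)).filter (fun i => b' i = true ∧ (r : ℤ) ≤ wk M b' i) := by
        refine Finset.filter_congr fun i _ => ?_
        rw [hup]
      rw [h2]
      have h3 : ((M - r : ℕ) : ℤ) = (M : ℤ) - r := by
        rw [Nat.cast_sub hrM]
      rw [← h3] at h1
      exact_mod_cast h1
    obtain ⟨μ', hμ0, hμs, hμm, hμd⟩ := hPK (wk M b') hstep r (M - r) hj i0 (i0 + 2 * M)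
      (by omega) hi0.le hi1.le hcard
    set I : Finset ℤ := Finset.Ico i0 (i0 + 2 * M) with hI
    set μ : ZMod (2 * M) → ℝ := fun z => ∑ i ∈ I, if (i : ZMod (2 * M)) = z then μ' i else 0
      with hμ
    have hswap : ∀ g : ZMod (2 * M) → ℝ, ∑ z, μ z * g z = ∑ i ∈ I, μ' i * g (i : ZMod (2 * M)) := by
      intro g
      simp only [hμ, Finset.sum_mul]
      rw [Finset.sum_comm]
      refine Finset.sum_congr rfl fun i _ => ?_
      simp only [ite_mul, zero_mul]
      rw [Finset.sum_ite_eq]
      simp
    refine ⟨μ, ?_, ?_, ?_, ?_⟩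
    · intro z
      refine Finset.sum_nonneg fun i _ => ?_
      split_ifs
      · exact hμ0 i
      · exact le_refl _
    · have h1 := hswap (fun _ => 1)
      simp only [mul_one] at h1
      rw [h1]
      have hjr : (0 : ℝ) < ((M - r : ℕ) : ℝ) := by exact_mod_cast hj
      have h2 : ((M - r : ℕ) : ℝ) * ∑ i ∈ I, μ' i ≤ ((M - r : ℕ) : ℝ) * 1 := by
        rw [hμm, mul_one]
        exact_mod_cast hcard
      exact le_of_mul_le_mul_left h2 hjr
    · intro z hz
      have : ∃ i ∈ I, (if (i : ZMod (2 * M)) = z then μ' i else 0) ≠ 0 := by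
        by_contra hc
        push Not at hc
        exact hz (Finset.sum_eq_zero hc)
      obtain ⟨i, -, hi⟩ := this
      split_ifs at hi with hiz
      · obtain ⟨-, -, h3, h4⟩ := hμs i hi
        constructor
        · have h5 := (hup (i - 1)).1 (by rw [sub_add_cancel]; exact h3)
          simp only [hb'] at h5
          push_cast at h5
          rw [hiz] at h5
          exact h5
        · have h5 := (hdown i).1 h4
          simp only [hb'] at h5
          rw [hiz] at h5
          exact h5
      · exact absurd rfl hi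
    · intro x
      rw [hswap (fun u => T M (M - r) (x - u))]
      set x' : ℤ := i0 + (((x - (i0 : ZMod (2 * M))).val : ℕ) : ℤ) with hx'
      have hxc : (x' : ZMod (2 * M)) = x := by
        rw [hx', Int.cast_add, hcast]
        ring
      have hlt : (x - (i0 : ZMod (2 * M))).val < 2 * M := ZMod.val_lt _
      have hx1 : i0 ≤ x' := by omega
      have hx2 : x' ≤ i0 + 2 * M := by
        have : (((x - (i0 : ZMod (2 * M))).val : ℕ) : ℤ) < 2 * M := by exact_mod_cast hlt
        omega
      have h1 := hμd x' hx1 hx2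
      have h2 : wz M b x = wk M b' x' := by rw [← hwz, hxc]
      rw [h2]
      refine h1.trans ?_
      refine Finset.sum_le_sum fun i _ => ?_
      refine mul_le_mul_of_nonneg_left ?_ (hμ0 i)
      have h3 := hTG M (M - r) (Nat.sub_le _ _) (x' - i)
      have h4 : ((x' - i : ℤ) : ZMod (2 * M)) = x - (i : ZMod (2 * M)) := by
        rw [Int.cast_sub, hxc]
      rw [h4] at h3
      push_cast at h3 ⊢
      exact h3

end Pool.Agent.H88.KN
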