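import Pool.Agent.H88.KN.Targets

/-!
MP_b5bf4a_co, module LY: the lengths of the level sets.
-/

namespace Pool.Agent.H88.KN

open Finset MeasureTheory

/-- the level set of a word -/
def lyE {M : ℕ} (lam : Fin M → ℝ) (w : Fin M → Bool) : Set ℝ :=
  {u | 0 ≤ u ∧ u < 1 ∧ ∀ l, (w l = true ↔ u < lam l)}

/-- the word of a point -/
noncomputable def lyW {M : ℕ} (lam : Fin M → ℝ) (u : ℝ) : Fin M → Bool := fun l => decide (u < lam l)

/-- the upper end -/
noncomputable def lyA {M : ℕ} (lam : Fin M → ℝ) (w : Fin M → Bool) : ℝ :=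
  (univ : Finset (Option (Fin M))).inf' univ_nonempty
    (fun o => o.elim 1 (fun l => if w l = true then lam l else 1))

/-- the lower end -/
noncomputable def lyB {M : ℕ} (lam : Fin M → ℝ) (w : Fin M → Bool) : ℝ :=
  (univ : Finset (Option (Fin M))).sup' univ_nonempty
    (fun o => o.elim 0 (fun l => if w l = true then 0 else lam l))

theorem lyE_eq {M : ℕ} (lam : Fin M → ℝ) (w : Fin M → Bool) :
    lyE lam w = Set.Ico (lyB lam w) (lyA lam w) := by
  ext u
  unfold lyE lyA lyB
  simp only [Set.mem_setOf_eq, Set.mem_Ico, Finset.sup'_le_iff, Finset.lt_inf'_iff,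
    Finset.mem_univ, true_implies, Option.forall, Option.elim_none, Option.elim_some]
  constructor
  · rintro ⟨h0, h1, h⟩
    refine ⟨⟨h0, fun l => ?_⟩, h1, fun l => ?_⟩
    · split_ifs with hw
      · exact h0
      · exact not_lt.1 fun hlt => hw ((h l).2 hlt)
    · split_ifs with hw
      · exact (h l).1 hw
      · exact h1
  · rintro ⟨⟨h0, ha⟩, h1, hb⟩
    refine ⟨h0, h1, fun l => ?_⟩
    have h2 := ha l
    have h3 := hb l
    constructor
    · intro hw
      rw [if_pos hw] at h3
      exact h3
    · intro hlt
      by_contra hw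
      rw [if_neg hw] at h2
      exact absurd hlt (not_lt.2 h2)

theorem ly_real {M : ℕ} (lam : Fin M → ℝ) (w : Fin M → Bool) :
    volume.real (lyE lam w) = max (lyA lam w - lyB lam w) 0 := by
  rw [lyE_eq, measureReal_def, Real.volume_Ico, ENNReal.toReal_ofReal']

theorem ly_sum {M : ℕ} (lam : Fin M → ℝ) (Q : (Fin M → Bool) → Prop) [DecidablePred Q] :
    ∑ w, (if Q w then volume.real (lyE lam w) else 0) =
      volume.real {u : ℝ | 0 ≤ u ∧ u < 1 ∧ Q (lyW lam u)} := by
  rw [← Finset.sum_filter]
  have hU : {u : ℝ | 0 ≤ u ∧ u < 1 ∧ Q (lyW lam u)} =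
      ⋃ w ∈ univ.filter Q, lyE lam w := by
    ext u
    simp only [Set.mem_setOf_eq, Set.mem_iUnion, Finset.mem_filter, Finset.mem_univ, true_and,
      exists_prop, lyE]
    constructor
    · rintro ⟨h0, h1, h2⟩
      exact ⟨_, h2, h0, h1, fun l => by simp [lyW]⟩
    · rintro ⟨w, hQ, h0, h1, h2⟩
      have : lyW lam u = w := by
        funext l
        have := h2 l
        unfold lyW
        cases hw : w l <;> simp_all
      exact ⟨h0, h1, this ▸ hQ⟩
  have hfin : ∀ w ∈ univ.filter Q, volume (lyE lam w) ≠ ⊤ := by
    intro w _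
    rw [lyE_eq, Real.volume_Ico]
    exact ENNReal.ofReal_ne_top
  rw [hU, measureReal_biUnion_finset _ _ hfin]
  · intro w _ w' _ hne
    rw [Function.onFun, Set.disjoint_left]
    rintro u ⟨_, _, h1⟩ ⟨_, _, h2⟩
    apply hne
    funext l
    have h3 := (h1 l).trans (h2 l).symm
    cases ha : w l <;> cases hb : w' l <;> simp_all
  · intro w _
    rw [lyE_eq]
    exact measurableSet_Ico

theorem pf_LY : T_LY := by
  intro M
  refine ⟨fun lam w => volume.real (lyE lam w), ?_, ?_, ?_, ?_, ?_⟩
  · intro w
    simp only [ly_real]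
    refine Continuous.max (Continuous.sub ?_ ?_) continuous_const
    · unfold lyA
      refine Continuous.finset_inf'_apply univ_nonempty fun o _ => ?_
      cases o with
      | none => exact continuous_const
      | some l =>
        simp only [Option.elim_some]
        split_ifs
        · exact continuous_apply l
        · exact continuous_const
    · unfold lyB
      refine Continuous.finset_sup'_apply univ_nonempty fun o _ => ?_
      cases o with
      | none => exact continuous_const
      | some l =>
        simp only [Option.elim_some]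
        split_ifs
        · exact continuous_const
        · exact continuous_apply l
  · intro lam w
    exact measureReal_nonneg
  · intro lam
    have h := ly_sum lam (fun _ => True)
    simp only [if_true, and_true] at h
    rw [h]
    have : {u : ℝ | 0 ≤ u ∧ u < 1} = Set.Ico 0 1 := rfl
    rw [this, measureReal_def, Real.volume_Ico]
    simp
  · intro lam hl l
    have h := ly_sum lam (fun w => w l = true)
    rw [h]
    have : {u : ℝ | 0 ≤ u ∧ u < 1 ∧ lyW lam u l = true} = Set.Ico 0 (lam l) := by
      ext u
      simp only [Set.mem_setOf_eq, Set.mem_Ico, lyW, decide_eq_true_eq]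
      constructor
      · rintro ⟨h0, _, h2⟩
        exact ⟨h0, h2⟩
      · rintro ⟨h0, h2⟩
        exact ⟨h0, lt_of_lt_of_le h2 (hl l).2, h2⟩
    rw [this, measureReal_def, Real.volume_Ico, sub_zero, ENNReal.toReal_ofReal (hl l).1]
  · intro lam w hne
    have hnon : (lyE lam w).Nonempty := by
      by_contra h
      rw [Set.not_nonempty_iff_eq_empty] at h
      apply hne
      simp only [h, measureReal_empty]
    obtain ⟨u, h0, h1, h2⟩ := hnon
    exact ⟨u, h0, h1, h2⟩

end Pool.Agent.H88.KN
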