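import Pool.Agent.H88.KN.Targets

/-!
MP_b5bf4a_co, dense range, module NS: from ranks to nodes (helper6).
-/

set_option autoImplicit false

namespace Pool.Agent.H88.KN

open Finset Pool.Agent.H66.GG

namespace NSaux

/-- indicator of the strict lower half -/
noncomputable def f0 (n ρ : ℕ) : ℝ := if 2 * ρ + 1 < n then 1 else 0

/-- indicator of the lower half -/
noncomputable def f1 (n ρ : ℕ) : ℝ := if 2 * ρ < n then 1 else 0

lemma hh_eq (n ρ : ℕ) : hh n ρ = (f0 n ρ + f1 n ρ) / 2 := rfl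

lemma f0_val (n ρ : ℕ) : f0 n ρ = 0 ∨ f0 n ρ = 1 := by
  unfold f0; split_ifs <;> simp

lemma f1_val (n ρ : ℕ) : f1 n ρ = 0 ∨ f1 n ρ = 1 := by
  unfold f1; split_ifs <;> simp

lemma f0_ne_half (n ρ : ℕ) : f0 n ρ ≠ 1 / 2 := by
  unfold f0; split_ifs <;> norm_num

lemma f1_ne_half (n ρ : ℕ) : f1 n ρ ≠ 1 / 2 := by
  unfold f1; split_ifs <;> norm_num

lemma hh_cases (n ρ : ℕ) : (2 * ρ + 1 < n ∧ hh n ρ = 1 ∧ f0 n ρ = 1 ∧ f1 n ρ = 1) ∨
    (2 * ρ + 1 = n ∧ hh n ρ = 1 / 2 ∧ f0 n ρ = 0 ∧ f1 n ρ = 1) ∨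
    (n < 2 * ρ + 1 ∧ hh n ρ = 0 ∧ f0 n ρ = 0 ∧ f1 n ρ = 0) := by
  rcases lt_trichotomy (2 * ρ + 1) n with h | h | h
  · left
    refine ⟨h, ?_⟩
    have h2 : 2 * ρ < n := by omega
    simp [hh, f0, f1, h, h2]
  · right; left
    refine ⟨h, ?_⟩
    have h1 : ¬ (2 * ρ + 1 < n) := by omega
    have h2 : 2 * ρ < n := by omega
    simp [hh, f0, f1, h1, h2]
  · right; right
    refine ⟨h, ?_⟩
    have h1 : ¬ (2 * ρ + 1 < n) := by omega
    have h2 : ¬ (2 * ρ < n) := by omega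
    simp [hh, f0, f1, h1, h2]

lemma f0_le_f1 (n ρ : ℕ) : f0 n ρ ≤ f1 n ρ := by
  rcases hh_cases n ρ with ⟨_, _, h1, h2⟩ | ⟨_, _, h1, h2⟩ | ⟨_, _, h1, h2⟩ <;> rw [h1, h2] <;>
    norm_num

lemma f0_lt (n a b : ℕ) (h : f0 n a < f0 n b) : b < a := by
  unfold f0 at h
  by_contra hc
  split_ifs at h <;> first | omega | (norm_num at h)

lemma f1_lt (n a b : ℕ) (h : f1 n a < f1 n b) : b < a := by
  unfold f1 at h
  by_contra hc
  split_ifs at h <;> first | omega | (norm_num at h)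

lemma hh_lt (n a b : ℕ) (h : hh n a < hh n b) : b < a := by
  by_contra hc
  have hc' : a ≤ b := by omega
  rcases hh_cases n a with ⟨h1, h2, _, _⟩ | ⟨h1, h2, _, _⟩ | ⟨h1, h2, _, _⟩ <;>
    rcases hh_cases n b with ⟨k1, k2, _, _⟩ | ⟨k1, k2, _, _⟩ | ⟨k1, k2, _, _⟩ <;>
    rw [h2, k2] at h <;> first | omega | (norm_num at h)

/-- the nodes -/
noncomputable def nd {V : Type} [Fintype V] (N : ℕ) (ρ : ℕ → V → ℕ) (τ : ℕ) (v : V) : ℝ :=
  if τ = 0 then f0 (Fintype.card V) (ρ 0 v)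
  else if τ ≤ N + 1 then hh (Fintype.card V) (ρ (τ - 1) v)
  else f1 (Fintype.card V) (ρ N v)

section

variable {V : Type} [Fintype V] (N : ℕ) (ρ : ℕ → V → ℕ)

lemma nd_zero (v : V) : nd N ρ 0 v = f0 (Fintype.card V) (ρ 0 v) := by simp [nd]

lemma nd_mid {τ : ℕ} (h : τ ≤ N) (v : V) :
    nd N ρ (τ + 1) v = hh (Fintype.card V) (ρ τ v) := by
  have : τ + 1 ≤ N + 1 := by omega
  simp [nd, h]

lemma nd_last (v : V) : nd N ρ (N + 2) v = f1 (Fintype.card V) (ρ N v) := by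
  simp [nd]

lemma cases_tau {τ : ℕ} (h : τ ≤ N + 2) : τ = 0 ∨ (∃ σ ≤ N, τ = σ + 1) ∨ τ = N + 2 := by
  rcases Nat.eq_zero_or_pos τ with h1 | h1
  · exact Or.inl h1
  · rcases Nat.lt_or_ge τ (N + 2) with h2 | h2
    · exact Or.inr (Or.inl ⟨τ - 1, by omega, by omega⟩)
    · exact Or.inr (Or.inr (by omega))

lemma nd_order {τ : ℕ} (h : τ ≤ N + 2) {v w : V} (hl : nd N ρ τ w < nd N ρ τ v) :
    ρ (min (τ - 1) N) v < ρ (min (τ - 1) N) w := by
  rcases cases_tau N h with h1 | ⟨σ, hσ, h1⟩ | h1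
  · subst h1
    rw [nd_zero, nd_zero] at hl
    have := f0_lt _ _ _ hl
    simpa using this
  · subst h1
    rw [nd_mid N ρ hσ, nd_mid N ρ hσ] at hl
    have := hh_lt _ _ _ hl
    simpa [Nat.min_eq_left hσ] using this
  · subst h1
    rw [nd_last, nd_last] at hl
    have := f1_lt _ _ _ hl
    have h3 : min (N + 2 - 1) N = N := by omega
    rw [h3]; exact this

end

end NSaux

open NSaux

theorem pf_NS (hNA : T_NA) (hNB : T_NB) (hNC : T_NC) (hNV : T_NV) (hNW : T_NW) : T_NS := by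
  intro V _ _ rel hirr K N ρ hρ hcut
  refine ⟨N + 2, by omega, nd N ρ, ?_⟩
  set n := Fintype.card V with hn
  -- the cuts of the two indicators
  have hc0 : ∀ τ ≤ N, ∀ f : V → ℝ, (∀ v, f v = f0 n (ρ τ v)) → FF rel f ≤ K := by
    intro τ hτ f hf
    have h1 := hNC V rel (univ.filter fun v => ρ τ v < n / 2) f (by
      intro v
      rw [hf v]
      simp only [f0, mem_filter, mem_univ, true_and]
      have : 2 * ρ τ v + 1 < n ↔ ρ τ v < n / 2 := by omega
      by_cases h : ρ τ v < n / 2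
      · rw [if_pos h, if_pos (this.2 h)]
      · rw [if_neg h, if_neg (fun h' => h (this.1 h'))])
    rw [h1]
    exact_mod_cast hcut τ hτ (n / 2) _ (by intro v; simp)
  have hc1 : ∀ τ ≤ N, ∀ f : V → ℝ, (∀ v, f v = f1 n (ρ τ v)) → FF rel f ≤ K := by
    intro τ hτ f hf
    have h1 := hNC V rel (univ.filter fun v => ρ τ v < (n + 1) / 2) f (by
      intro v
      rw [hf v]
      simp only [f1, mem_filter, mem_univ, true_and]
      have : 2 * ρ τ v < n ↔ ρ τ v < (n + 1) / 2 := by omega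
      by_cases h : ρ τ v < (n + 1) / 2
      · rw [if_pos h, if_pos (this.2 h)]
      · rw [if_neg h, if_neg (fun h' => h (this.1 h'))])
    rw [h1]
    exact_mod_cast hcut τ hτ ((n + 1) / 2) _ (by intro v; simp)
  -- only the median vertex moves between the indicators
  have hmed : ∀ τ ≤ N, ∀ v w, v ≠ w → 2 * ρ τ v + 1 = n → 2 * ρ τ w + 1 = n → False := by
    intro τ hτ v w hvw h1 h2
    exact hvw (hρ.inj τ hτ (by omega))
  have hstep : ∀ σ < N, (∀ v, ρ (σ + 1) v ≤ ρ σ v + 1) ∧ (∀ v, ρ σ v ≤ ρ (σ + 1) v + 1) :=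
    fun σ hσ => ⟨hρ.up σ hσ, hρ.down σ hσ⟩
  have hcase : ∀ τ < N + 2, τ = 0 ∨ (∃ σ < N, τ = σ + 1) ∨ τ = N + 1 := by
    intro τ hτ
    rcases Nat.eq_zero_or_pos τ with h1 | h1
    · exact Or.inl h1
    · rcases Nat.lt_or_ge τ (N + 1) with h2 | h2
      · exact Or.inr (Or.inl ⟨τ - 1, by omega, by omega⟩)
      · exact Or.inr (Or.inr (by omega))
  constructor
  · -- first
    intro v
    rw [nd_zero]
    exact f0_val _ _
  · -- last
    intro v
    rw [nd_zero, nd_last]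
    have h := hρ.last v
    rw [← hn] at h ⊢
    unfold f0 f1
    by_cases h1 : 2 * ρ 0 v + 1 < n
    · have h2 : ¬ (2 * ρ N v < n) := by omega
      rw [if_pos h1, if_neg h2]; norm_num
    · have h2 : 2 * ρ N v < n := by omega
      rw [if_neg h1, if_pos h2]; norm_num
  · -- vals
    intro τ hτ v
    rcases cases_tau N hτ with h1 | ⟨σ, hσ, h1⟩ | h1
    · subst h1
      rw [nd_zero]
      rcases f0_val (Fintype.card V) (ρ 0 v) with h | h
      · exact Or.inl h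
      · exact Or.inr (Or.inr h)
    · subst h1
      rw [nd_mid N ρ hσ]
      rcases hh_cases (Fintype.card V) (ρ σ v) with ⟨_, h, _⟩ | ⟨_, h, _⟩ | ⟨_, h, _⟩
      · exact Or.inr (Or.inr h)
      · exact Or.inr (Or.inl h)
      · exact Or.inl h
    · subst h1
      rw [nd_last]
      rcases f1_val (Fintype.card V) (ρ N v) with h | h
      · exact Or.inl h
      · exact Or.inr (Or.inr h)
  · -- half
    intro τ hτ v w hvw h1 h2
    rcases cases_tau N hτ with h | ⟨σ, hσ, h⟩ | h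
    · subst h
      rw [nd_zero] at h1
      exact f0_ne_half _ _ h1
    · subst h
      rw [nd_mid N ρ hσ] at h1 h2
      have e : ∀ z, hh (Fintype.card V) (ρ σ z) = 1 / 2 → 2 * ρ σ z + 1 = n := by
        intro z hz
        rcases hh_cases (Fintype.card V) (ρ σ z) with ⟨_, h, _⟩ | ⟨h', h, _⟩ | ⟨_, h, _⟩
        · rw [h] at hz; norm_num at hz
        · exact h'
        · rw [h] at hz; norm_num at hz
      exact hmed σ hσ v w hvw (e v h1) (e w h2)
    · subst h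
      rw [nd_last] at h1
      exact f1_ne_half _ _ h1
  · -- seg
    intro τ hτ v w hvw
    rcases hcase τ hτ with h | ⟨σ, hσ, h⟩ | h
    · subst h
      rw [nd_zero, nd_zero, nd_mid N ρ (Nat.zero_le N), nd_mid N ρ (Nat.zero_le N)]
      have e : ∀ z, f0 (Fintype.card V) (ρ 0 z) < hh (Fintype.card V) (ρ 0 z) →
          2 * ρ 0 z + 1 = n := by
        intro z hz
        rcases hh_cases (Fintype.card V) (ρ 0 z) with ⟨_, h, h', _⟩ | ⟨h', h, _⟩ | ⟨_, h, h', _⟩
        · rw [h, h'] at hz; exact absurd hz (lt_irrefl _)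
        · exact h'
        · rw [h, h'] at hz; exact absurd hz (lt_irrefl _)
      have e' : ∀ z, ¬ hh (Fintype.card V) (ρ 0 z) < f0 (Fintype.card V) (ρ 0 z) := by
        intro z hz
        rw [hh_eq] at hz
        have := f0_le_f1 (Fintype.card V) (ρ 0 z)
        linarith
      exact ⟨fun h => hmed 0 (Nat.zero_le N) v w hvw (e v h.1) (e w h.2), fun h => e' v h.1⟩
    · subst h
      rw [nd_mid N ρ hσ.le, nd_mid N ρ hσ.le, nd_mid N ρ (Nat.succ_le_of_lt hσ),
        nd_mid N ρ (Nat.succ_le_of_lt hσ)]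
      have hi := hρ.inj σ hσ.le
      have hi' := hρ.inj (σ + 1) hσ
      exact ⟨hNA V (ρ σ) (ρ (σ + 1)) hi hi' (hρ.lt σ hσ.le) (hρ.lt (σ + 1) hσ)
        (hρ.up σ hσ) (hρ.down σ hσ) v w hvw,
        hNA V (ρ (σ + 1)) (ρ σ) hi' hi (hρ.lt (σ + 1) hσ) (hρ.lt σ hσ.le)
        (hρ.down σ hσ) (hρ.up σ hσ) v w hvw⟩
    · subst h
      rw [nd_mid N ρ le_rfl, nd_mid N ρ le_rfl, show N + 1 + 1 = N + 2 from rfl, nd_last, nd_last]
      have e : ∀ z, hh (Fintype.card V) (ρ N z) < f1 (Fintype.card V) (ρ N z) →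
          2 * ρ N z + 1 = n := by
        intro z hz
        rcases hh_cases (Fintype.card V) (ρ N z) with ⟨_, h, _, h'⟩ | ⟨h', h, _⟩ | ⟨_, h, _, h'⟩
        · rw [h, h'] at hz; exact absurd hz (lt_irrefl _)
        · exact h'
        · rw [h, h'] at hz; exact absurd hz (lt_irrefl _)
      have e' : ∀ z, ¬ f1 (Fintype.card V) (ρ N z) < hh (Fintype.card V) (ρ N z) := by
        intro z hz
        rw [hh_eq] at hz
        have := f0_le_f1 (Fintype.card V) (ρ N z)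
        linarith
      exact ⟨fun h => hmed N le_rfl v w hvw (e v h.1) (e w h.2), fun h => e' v h.1⟩
  · -- cut
    intro τ hτ
    rcases cases_tau N hτ with h1 | ⟨σ, hσ, h1⟩ | h1
    · subst h1
      exact hc0 0 (Nat.zero_le N) _ (fun v => nd_zero N ρ v)
    · subst h1
      have h2 := hNB V rel hirr (fun v => f0 n (ρ σ v)) (fun v => f1 n (ρ σ v)) (by
        intro v w hvw
        have e : ∀ z, f0 n (ρ σ z) < f1 n (ρ σ z) → 2 * ρ σ z + 1 = n := by
          intro z hz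
          rcases hh_cases n (ρ σ z) with ⟨_, _, h, h'⟩ | ⟨h', _⟩ | ⟨_, _, h, h'⟩
          · rw [h, h'] at hz; exact absurd hz (lt_irrefl _)
          · exact h'
          · rw [h, h'] at hz; exact absurd hz (lt_irrefl _)
        exact ⟨fun h => hmed σ hσ v w hvw (e v h.1) (e w h.2),
          fun h => absurd h.1 (not_lt.2 (f0_le_f1 _ _))⟩) (1 / 2) (by norm_num) (by norm_num)
      have h3 : (nd N ρ (σ + 1)) = fun v => (1 - 1 / 2) * f0 n (ρ σ v) + 1 / 2 * f1 n (ρ σ v) := by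
        funext v
        rw [nd_mid N ρ hσ, hh_eq, hn]; ring
      rw [h3]
      have h4 := hc0 σ hσ (fun v => f0 n (ρ σ v)) (fun _ => rfl)
      have h5 := hc1 σ hσ (fun v => f1 n (ρ σ v)) (fun _ => rfl)
      refine h2.trans ?_
      linarith
    · subst h1
      exact hc1 N le_rfl _ (fun v => nd_last N ρ v)
  · -- var
    intro τ hτ s hs0 hs1
    rcases hcase τ hτ with h | ⟨σ, hσ, h⟩ | h
    · subst h
      exact hNW V (ρ 0) (hρ.inj 0 (Nat.zero_le N)) (hρ.lt 0 (Nat.zero_le N)) s hs0 hs1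
        (nd N ρ 0) (nd N ρ (0 + 1)) (Or.inl fun v => nd_zero N ρ v)
        (fun v => nd_mid N ρ (Nat.zero_le N) v)
    · subst h
      exact hNV V (ρ σ) (ρ (σ + 1)) (hρ.inj σ hσ.le) (hρ.inj (σ + 1) hσ) (hρ.lt σ hσ.le)
        (hρ.lt (σ + 1) hσ) (hρ.up σ hσ) (hρ.down σ hσ) s hs0 hs1
        (nd N ρ (σ + 1)) (nd N ρ (σ + 1 + 1)) (fun v => nd_mid N ρ hσ.le v)
        (fun v => nd_mid N ρ (Nat.succ_le_of_lt hσ) v)
    · subst h
      have h6 := hNW V (ρ N) (hρ.inj N le_rfl) (hρ.lt N le_rfl) (1 - s) (by linarith)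
        (by linarith) (nd N ρ (N + 2)) (nd N ρ (N + 1)) (Or.inr fun v => nd_last N ρ v)
        (fun v => nd_mid N ρ le_rfl v)
      have h7 : ∀ v, (1 - (1 - s)) * nd N ρ (N + 2) v + (1 - s) * nd N ρ (N + 1) v =
          (1 - s) * nd N ρ (N + 1) v + s * nd N ρ (N + 1 + 1) v := by
        intro v
        rw [show N + 1 + 1 = N + 2 from rfl]; ring
      simp only [h7] at h6
      exact h6
  · -- order
    intro v w _ τ1 τ2 τ3 h12 h23 h3 ⟨a, b, c⟩
    have a' := nd_order N ρ (by omega : τ1 ≤ N + 2) a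
    have b' := nd_order N ρ (by omega : τ2 ≤ N + 2) b
    have c' := nd_order N ρ (by omega : τ3 ≤ N + 2) c
    rcases Nat.lt_or_ge (min (τ1 - 1) N) (min (τ2 - 1) N) with h | h
    · rcases Nat.lt_or_ge (min (τ2 - 1) N) (min (τ3 - 1) N) with h' | h'
      · exact hρ.order v w _ _ _ h h' (by omega) ⟨a', b', c'⟩
      · have : min (τ3 - 1) N = min (τ2 - 1) N := by omega
        rw [this] at c'
        omega
    · have : min (τ2 - 1) N = min (τ1 - 1) N := by omega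
      rw [this] at b'
      omega

end Pool.Agent.H88.KN
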