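import Pool.Agent.H88.KN.Targets

namespace Pool.Agent.H88.KN
open Finset

/-- the jump of `hh` -/
lemma nv_jump (n x y : ℕ) (h1 : y ≤ x + 1) (h2 : x ≤ y + 1) :
    |hh n x - hh n y| ≤ if n % 2 = 0 then 1 else 1 / 2 := by
  unfold hh
  rw [abs_le]
  split_ifs <;> first | (constructor <;> norm_num; done) | (exfalso; omega)

lemma nv_sq {V : Type} [Fintype V] [DecidableEq V] (f g : V → ℝ) (b : ℝ) (hb : 0 ≤ b)
    (h : ∀ v, |f v - g v| ≤ b) (h1 : ∀ v w, v ≠ w → ¬ (f v < g v ∧ f w < g w))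
    (h2 : ∀ v w, v ≠ w → ¬ (g v < f v ∧ g w < f w)) :
    ∑ v, (f v - g v) ^ 2 ≤ 2 * b ^ 2 := by
  classical
  have hc1 : (univ.filter (fun v => f v < g v)).card ≤ 1 := by
    rw [Finset.card_le_one]
    intro v hv w hw
    by_contra hvw
    exact h1 v w hvw ⟨(Finset.mem_filter.1 hv).2, (Finset.mem_filter.1 hw).2⟩
  have hc2 : (univ.filter (fun v => g v < f v)).card ≤ 1 := by
    rw [Finset.card_le_one]
    intro v hv w hw
    by_contra hvw
    exact h2 v w hvw ⟨(Finset.mem_filter.1 hv).2, (Finset.mem_filter.1 hw).2⟩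
  have hle : ∀ v, (f v - g v) ^ 2 ≤
      (if f v < g v then b ^ 2 else 0) + (if g v < f v then b ^ 2 else 0) := by
    intro v
    have hs : (f v - g v) ^ 2 ≤ b ^ 2 := sq_le_sq' (by linarith [(abs_le.1 (h v)).1])
      (abs_le.1 (h v)).2
    have hb2 : 0 ≤ b ^ 2 := sq_nonneg b
    rcases lt_trichotomy (f v) (g v) with h3 | h3 | h3
    · rw [if_pos h3, if_neg (not_lt.2 h3.le)]; linarith
    · rw [h3]; simp
    · rw [if_neg (not_lt.2 h3.le), if_pos h3]; linarith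
  refine (Finset.sum_le_sum fun v _ => hle v).trans ?_
  rw [Finset.sum_add_distrib, ← Finset.sum_filter, ← Finset.sum_filter, Finset.sum_const,
    Finset.sum_const, nsmul_eq_mul, nsmul_eq_mul]
  have e1 : ((univ.filter (fun v => f v < g v)).card : ℝ) ≤ 1 := by exact_mod_cast hc1
  have e2 : ((univ.filter (fun v => g v < f v)).card : ℝ) ≤ 1 := by exact_mod_cast hc2
  nlinarith [sq_nonneg b]

theorem pf_NV (hNA : T_NA) (hND : T_ND) : T_NV := by
  intro V _ _ ρ ρ' hi hi' hl hl' h1 h2 s hs0 hs1 f g hf hg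
  obtain ⟨f1, f2⟩ := hND V ρ hi hl
  obtain ⟨g1, g2⟩ := hND V ρ' hi' hl'
  simp only [← hf] at f1 f2
  simp only [← hg] at g1 g2
  set n := Fintype.card V with hn
  set c : ℝ := if n % 2 = 0 then 0 else 1 / 4 with hc
  set b : ℝ := if n % 2 = 0 then 1 else 1 / 2 with hb
  have hjump : ∀ v, |f v - g v| ≤ b := by
    intro v
    rw [hf, hg]
    exact nv_jump n _ _ (h1 v) (h2 v)
  have hb0 : 0 ≤ b := by rw [hb]; split_ifs <;> norm_num
  have hsq := nv_sq f g b hb0 hjump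
    (fun v w hvw => by
      rw [hf, hg, hf, hg]
      exact hNA V ρ ρ' hi hi' hl hl' h1 h2 v w hvw)
    (fun v w hvw => by
      rw [hf, hg, hf, hg]
      exact hNA V ρ' ρ hi' hi hl' hl h2 h1 v w hvw)
  have e1 : ∑ v, ((1 - s) * f v + s * g v) = (n : ℝ) / 2 := by
    rw [Finset.sum_add_distrib, ← Finset.mul_sum, ← Finset.mul_sum, f1, g1]; ring
  have e2 : ∑ v, ((1 - s) * f v + s * g v) * (1 - ((1 - s) * f v + s * g v)) =
      (1 - s) * c + s * c + s * (1 - s) * ∑ v, (f v - g v) ^ 2 := by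
    have h3 : ∀ v, ((1 - s) * f v + s * g v) * (1 - ((1 - s) * f v + s * g v)) =
        (1 - s) * (f v * (1 - f v)) + s * (g v * (1 - g v)) + s * (1 - s) * (f v - g v) ^ 2 := by
      intro v; ring
    rw [Finset.sum_congr rfl (fun v _ => h3 v), Finset.sum_add_distrib, Finset.sum_add_distrib,
      ← Finset.mul_sum, ← Finset.mul_sum, ← Finset.mul_sum, f2, g2]
  rw [e1, e2]
  have hq : 0 ≤ ∑ v, (f v - g v) ^ 2 := Finset.sum_nonneg fun v _ => sq_nonneg _
  have hss : s * (1 - s) ≤ 1 / 4 := by nlinarith [sq_nonneg (s - 1 / 2)]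
  have hss0 : 0 ≤ s * (1 - s) := mul_nonneg hs0 (by linarith)
  have h5 : s * (1 - s) * ∑ v, (f v - g v) ^ 2 ≤ 1 / 4 * (2 * b ^ 2) :=
    mul_le_mul hss hsq hq (by norm_num)
  have h6 : c + 1 / 4 * (2 * b ^ 2) ≤ 1 / 2 := by
    rw [hc, hb]
    split_ifs <;> norm_num
  have h7 : ((n : ℝ) / 2 - (n : ℝ) / 2) ^ 2 = 0 := by ring
  rw [h7]
  linarith

end Pool.Agent.H88.KN
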