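import Pool.Agent.H88.KN.Targets

namespace Pool.Agent.H88.KN

open Finset

theorem NW_sum {V : Type} [Fintype V] (ρ : V → ℕ) (hρ : Function.Injective ρ)
    (hlt : ∀ v, ρ v < Fintype.card V) (F : ℕ → ℝ) :
    ∑ v, F (ρ v) = ∑ k ∈ range (Fintype.card V), F k := by
  classical
  have himg : univ.image ρ = range (Fintype.card V) := by
    apply Finset.eq_of_subset_of_card_le
    · intro k hk
      rw [Finset.mem_image] at hk
      obtain ⟨v, -, rfl⟩ := hk
      exact Finset.mem_range.2 (hlt v)
    · rw [Finset.card_image_of_injective _ hρ, Finset.card_range, Finset.card_univ]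
  rw [← himg, Finset.sum_image (fun v _ w _ h => hρ h)]

theorem NW_core (n : ℕ) (s : ℝ) (F : ℕ → ℝ)
    (hF : (∀ k, F k = (1 - s) * (if 2 * k + 1 < n then 1 else 0) + s * hh n k) ∨
      (∀ k, F k = (1 - s) * (if 2 * k < n then 1 else 0) + s * hh n k)) :
    (∑ k ∈ range n, F k - (n : ℝ) / 2) ^ 2 + ∑ k ∈ range n, F k * (1 - F k) ≤ 1 / 2 := by
  rcases Nat.even_or_odd' n with ⟨m, hm | hm⟩
  · have hF' : ∀ k, F k = if k < m then 1 else 0 := by
      intro k
      have i1 : (2 * k + 1 < n) ↔ k < m := by omega
      have i2 : (2 * k < n) ↔ k < m := by omega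
      rcases hF with h | h
      · rw [h]; unfold hh; simp only [i1, i2]; split_ifs <;> ring
      · rw [h]; unfold hh; simp only [i1, i2]; split_ifs <;> ring
    have h1 : ∑ k ∈ range n, F k = m := by
      simp only [hF']
      rw [← Finset.sum_filter]
      have : (range n).filter (fun k => k < m) = range m := by
        ext k; simp only [Finset.mem_filter, Finset.mem_range]; omega
      rw [this]; simp
    have h2 : ∑ k ∈ range n, F k * (1 - F k) = 0 := by
      apply Finset.sum_eq_zero
      intro k _
      rw [hF']; split_ifs <;> ring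
    rw [h1, h2, hm]
    push_cast
    nlinarith
  · obtain ⟨c, hc⟩ : ∃ c : ℝ, ∀ k, F k = (if k < m then 1 else 0) + (if k = m then c else 0) := by
      rcases hF with h | h
      · refine ⟨s / 2, fun k => ?_⟩
        have i1 : (2 * k + 1 < n) ↔ k < m := by omega
        have i2 : (2 * k < n) ↔ k ≤ m := by omega
        rw [h]; unfold hh; simp only [i1, i2]
        rcases lt_trichotomy k m with h3 | h3 | h3
        · simp [h3, h3.le, h3.ne]
        · subst h3; simp; ring
        · simp [h3.not_gt, h3.not_ge, h3.ne']
      · refine ⟨1 - s / 2, fun k => ?_⟩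
        have i1 : (2 * k + 1 < n) ↔ k < m := by omega
        have i2 : (2 * k < n) ↔ k ≤ m := by omega
        rw [h]; unfold hh; simp only [i1, i2]
        rcases lt_trichotomy k m with h3 | h3 | h3
        · simp [h3, h3.le, h3.ne]
        · subst h3; simp; ring
        · simp [h3.not_gt, h3.not_ge, h3.ne']
    have h1 : ∑ k ∈ range n, F k = m + c := by
      simp only [hc]
      rw [Finset.sum_add_distrib, ← Finset.sum_filter, Finset.sum_ite_eq']
      have : (range n).filter (fun k => k < m) = range m := by
        ext k; simp only [Finset.mem_filter, Finset.mem_range]; omega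
      rw [this, if_pos (Finset.mem_range.2 (by omega))]; simp
    have h2 : ∑ k ∈ range n, F k * (1 - F k) = c * (1 - c) := by
      have h3 : ∀ k ∈ range n, F k * (1 - F k) = if k = m then c * (1 - c) else 0 := by
        intro k _
        rw [hc]
        rcases lt_trichotomy k m with h3 | h3 | h3
        · simp [h3, h3.ne]
        · subst h3; simp
        · simp [h3.not_gt, h3.ne']
      rw [Finset.sum_congr rfl h3, Finset.sum_ite_eq', if_pos (Finset.mem_range.2 (by omega))]
    rw [h1, h2, hm]
    push_cast
    nlinarith

theorem pf_NW : T_NW := by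
  intro V _ _ ρ hρ hlt s _ _ f g hf hg
  rcases hf with hf | hf
  · have h := NW_core (Fintype.card V) s
      (fun k => (1 - s) * (if 2 * k + 1 < Fintype.card V then 1 else 0) +
        s * hh (Fintype.card V) k) (Or.inl fun k => rfl)
    rw [← NW_sum ρ hρ hlt, ← NW_sum ρ hρ hlt (fun k => ((1 - s) *
      (if 2 * k + 1 < Fintype.card V then 1 else 0) + s * hh (Fintype.card V) k) *
      (1 - ((1 - s) * (if 2 * k + 1 < Fintype.card V then 1 else 0) +
        s * hh (Fintype.card V) k)))] at h
    simp only [hf, hg]
    exact h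
  · have h := NW_core (Fintype.card V) s
      (fun k => (1 - s) * (if 2 * k < Fintype.card V then 1 else 0) +
        s * hh (Fintype.card V) k) (Or.inr fun k => rfl)
    rw [← NW_sum ρ hρ hlt, ← NW_sum ρ hρ hlt (fun k => ((1 - s) *
      (if 2 * k < Fintype.card V then 1 else 0) + s * hh (Fintype.card V) k) *
      (1 - ((1 - s) * (if 2 * k < Fintype.card V then 1 else 0) +
        s * hh (Fintype.card V) k)))] at h
    simp only [hf, hg]
    exact h

end Pool.Agent.H88.KN
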