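import Pool.Agent.H88.KN.Targets

/-!
MP_b5bf4a_co, module RA: ranks at a generic slope (helper77).
-/

namespace Pool.Agent.H88.KN

open Finset Pool.Agent.H66.GG

namespace RA

lemma f_inj {V : Type*} [Fintype V] [DecidableEq V] {x y : V → ℝ} (G : GenPos x y) {s : ℝ}
    (hs : ¬ Crit x y s) {v w : V} (h : x v + s * y v = x w + s * y w) : v = w := by
  by_contra hne
  have hy : y v ≠ y w := fun e => hne (G.inj e)
  have h2 := slp_spec (x := x) hy s
  rw [h, sub_self] at h2
  have h3 : y w - y v ≠ 0 := sub_ne_zero.2 hy.symm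
  rcases mul_eq_zero.1 h2.symm with h4 | h4
  · exact h3 h4
  · exact hs ⟨v, w, hne, (sub_eq_zero.1 h4).symm⟩

lemma mem_filt {V : Type*} [Fintype V] [DecidableEq V] (x y : V → ℝ) (s : ℝ) (v z : V) :
    z ∈ univ.filter (fun z => x z + s * y z < x v + s * y v) ↔
      x z + s * y z < x v + s * y v := by
  simp

lemma rk_eq {V : Type*} [Fintype V] [DecidableEq V] (x y : V → ℝ) (s : ℝ) (v : V) :
    rk x y s v = (univ.filter (fun z => x z + s * y z < x v + s * y v)).card := by
  unfold rk
  congr 1

lemma rk_lt {V : Type*} [Fintype V] [DecidableEq V] (x y : V → ℝ) (s : ℝ) {v w : V}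
    (h : x v + s * y v < x w + s * y w) : rk x y s v < rk x y s w := by
  rw [rk_eq, rk_eq]
  apply Finset.card_lt_card
  rw [Finset.ssubset_iff_of_subset]
  · refine ⟨v, ?_, ?_⟩
    · rw [mem_filt]; exact h
    · rw [mem_filt]; exact lt_irrefl _
  · intro z hz
    rw [mem_filt] at hz ⊢
    exact hz.trans h

end RA

open RA in
theorem pf_RA : T_RA := by
  intro V _ _ x y G s hs
  have key : ∀ v w, rk x y s v < rk x y s w → x v + s * y v < x w + s * y w := by
    intro v w h
    by_contra hc
    rcases lt_or_eq_of_le (not_lt.1 hc) with h1 | h1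
    · exact absurd (rk_lt x y s h1) (not_lt.2 h.le)
    · have := f_inj G hs h1
      subst this
      exact lt_irrefl _ h
  refine ⟨?_, ?_, ?_⟩
  · intro v w h
    rcases lt_trichotomy (x v + s * y v) (x w + s * y w) with h1 | h1 | h1
    · exact absurd h (rk_lt x y s h1).ne
    · exact f_inj G hs h1
    · exact absurd h (rk_lt x y s h1).ne'
  · intro v
    rw [rk_eq]
    apply Finset.card_lt_univ_of_notMem (x := v)
    rw [mem_filt]
    exact lt_irrefl _
  · intro m S hS
    rcases S.eq_empty_or_nonempty with h0 | hne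
    · refine ⟨0, 0, -1, fun v => ⟨fun h => ?_, fun _ => ?_⟩⟩
      · rw [h0] at h; simp at h
      · norm_num
    · rcases Sᶜ.eq_empty_or_nonempty with h1 | hne1
      · refine ⟨0, 0, 1, fun v => ⟨fun _ => ?_, fun h => ?_⟩⟩
        · norm_num
        · have h2 : v ∈ Sᶜ := Finset.mem_compl.2 h
          rw [h1] at h2; simp at h2
      · obtain ⟨a, ha, hamax⟩ := Finset.exists_max_image S (fun z => x z + s * y z) hne
        obtain ⟨b, hb, hbmin⟩ := Finset.exists_min_image Sᶜ (fun z => x z + s * y z) hne1
        have hab : x a + s * y a < x b + s * y b := by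
          apply key
          have h3 := (hS a).1 ha
          have h4 : ¬ rk x y s b < m := fun h => (Finset.mem_compl.1 hb) ((hS b).2 h)
          omega
        refine ⟨1, s, (x a + s * y a + (x b + s * y b)) / 2, fun v => ⟨fun h => ?_, fun h => ?_⟩⟩
        · have h5 := hamax v h
          linarith
        · have h5 := hbmin v (Finset.mem_compl.2 h)
          linarith

end Pool.Agent.H88.KN
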