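import Pool.Agent.H88.KN.Targets

/-!
MP_b5bf4a_co, module RB: ranks move by at most one across one critical slope (helper77).
-/

namespace Pool.Agent.H88.KN

open Finset Pool.Agent.H66.GG

theorem pf_RB : T_RB := by
  intro V _ _ x y G s s' c hss hs hs' hc v
  have hrk : ∀ t : ℝ, rk x y t v =
      (univ.filter (fun z => x z + t * y z < x v + t * y v)).card := by
    intro t
    unfold rk
    congr 1
  -- all points except one have the same position relative to `v`
  have hone : ∃ w, ∀ z, z ≠ w →
      (x z + s * y z < x v + s * y v ↔ x z + s' * y z < x v + s' * y v) := by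
    have hsame : ∀ z, z ≠ v → ¬ (s < slp x y v z ∧ slp x y v z < s') →
        (x z + s * y z < x v + s * y v ↔ x z + s' * y z < x v + s' * y v) := by
      intro z hz hn
      have hy : y v ≠ y z := fun e => hz (G.inj e).symm
      have h1 : slp x y v z ≠ s := fun e => hs ⟨v, z, hz.symm, e⟩
      have h2 : slp x y v z ≠ s' := fun e => hs' ⟨v, z, hz.symm, e⟩
      rw [lt_iff_slp hy, lt_iff_slp hy]
      have h3 : s < slp x y v z ↔ s' < slp x y v z := by
        constructor
        · intro h
          by_contra h4
          exact hn ⟨h, lt_of_le_of_ne (not_lt.1 h4) h2⟩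
        · intro h; exact hss.trans h
      have h4 : slp x y v z < s ↔ slp x y v z < s' := by
        constructor
        · intro h; exact h.trans hss
        · intro h
          by_contra h5
          exact hn ⟨lt_of_le_of_ne (not_lt.1 h5) (Ne.symm h1), h⟩
      rw [h3, h4]
    by_cases hex : ∃ w, w ≠ v ∧ s < slp x y v w ∧ slp x y v w < s'
    · obtain ⟨w, hw, hw1, hw2⟩ := hex
      refine ⟨w, fun z hzw => ?_⟩
      by_cases hz : z = v
      · subst hz
        exact ⟨fun h => absurd h (lt_irrefl _), fun h => absurd h (lt_irrefl _)⟩
      · apply hsame z hz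
        rintro ⟨h1, h2⟩
        have e1 := hc _ ⟨v, w, hw.symm, rfl⟩ hw1 hw2
        have e2 := hc _ ⟨v, z, Ne.symm hz, rfl⟩ h1 h2
        exact G.slp_ne v w z hw hz (Ne.symm hzw) (e1.trans e2.symm)
    · refine ⟨v, fun z hz => hsame z hz ?_⟩
      rintro ⟨h1, h2⟩
      exact hex ⟨z, hz, h1, h2⟩
  obtain ⟨w, hw⟩ := hone
  rw [hrk s, hrk s']
  constructor
  · calc (univ.filter (fun z => x z + s' * y z < x v + s' * y v)).card
        ≤ (insert w (univ.filter (fun z => x z + s * y z < x v + s * y v))).card := by
          apply Finset.card_le_card
          intro z hz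
          by_cases hzw : z = w
          · rw [hzw]; exact Finset.mem_insert_self _ _
          · apply Finset.mem_insert_of_mem
            simp only [mem_filter, mem_univ, true_and] at hz ⊢
            exact (hw z hzw).2 hz
      _ ≤ _ := Finset.card_insert_le _ _
  · calc (univ.filter (fun z => x z + s * y z < x v + s * y v)).card
        ≤ (insert w (univ.filter (fun z => x z + s' * y z < x v + s' * y v))).card := by
          apply Finset.card_le_card
          intro z hz
          by_cases hzw : z = w
          · rw [hzw]; exact Finset.mem_insert_self _ _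
          · apply Finset.mem_insert_of_mem
            simp only [mem_filter, mem_univ, true_and] at hz ⊢
            exact (hw z hzw).1 hz
      _ ≤ _ := Finset.card_insert_le _ _

end Pool.Agent.H88.KN
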