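import Pool.Agent.H88.KN.Targets

namespace Pool.Agent.H88.KN

open Finset

theorem UC_sum_Ico (F : ℤ → ℤ) (i0 : ℤ) (N : ℕ) :
    ∑ i ∈ Finset.Ico i0 (i0 + N), F i = ∑ t ∈ range N, F (i0 + t) := by
  refine Finset.sum_nbij' (fun i => (i - i0).toNat) (fun t => i0 + (t : ℤ)) ?_ ?_ ?_ ?_ ?_
  · intro i hi
    rw [Finset.mem_Ico] at hi
    rw [Finset.mem_range]
    omega
  · intro t ht
    rw [Finset.mem_range] at ht
    rw [Finset.mem_Ico]
    omega
  · intro i hi
    rw [Finset.mem_Ico] at hi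
    omega
  · intro t _
    omega
  · intro i hi
    rw [Finset.mem_Ico] at hi
    congr 1
    omega

theorem pf_UC (hWS : T_WS) (hWA : T_WA) : T_UC := by
  intro M r h1 h2 b hb i0 hi0
  have hS := hWS M b hb
  have hA := hWA M b hb
  set a : ℤ → ℤ := wk M b with ha
  have e1 : ((((Finset.Ico i0 (i0 + 2 * M)).filter
      (fun i => b i = true ∧ (r : ℤ) ≤ a i)).card : ℕ) : ℤ) =
      ∑ t ∈ range (M + M), (if b (i0 + t) = true ∧ (r : ℤ) ≤ a (i0 + t) then (1 : ℤ) else 0) := by
    rw [Finset.card_filter]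
    push_cast
    have := UC_sum_Ico (fun i => if b i = true ∧ (r : ℤ) ≤ a i then (1 : ℤ) else 0) i0 (M + M)
    rw [← this]
    have e : i0 + ((M + M : ℕ) : ℤ) = i0 + 2 * M := by push_cast; ring
    rw [e]
  rw [e1, Finset.sum_range_add]
  have e2 : ∀ t ∈ range M, (if b (i0 + ((M + t : ℕ) : ℤ)) = true ∧
      (r : ℤ) ≤ a (i0 + ((M + t : ℕ) : ℤ)) then (1 : ℤ) else 0) =
      if b (i0 + t) = false ∧ a (i0 + t) ≤ M - r then 1 else 0 := by
    intro t _
    have e : i0 + ((M + t : ℕ) : ℤ) = (i0 + t) + M := by push_cast; ring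
    rw [e, hA, hb]
    have : ((!b (i0 + t)) = true ∧ (r : ℤ) ≤ (M : ℤ) - a (i0 + t)) ↔
        (b (i0 + t) = false ∧ a (i0 + t) ≤ (M : ℤ) - r) := by
      constructor
      · rintro ⟨h3, h4⟩
        exact ⟨by simpa using h3, by omega⟩
      · rintro ⟨h3, h4⟩
        exact ⟨by simpa using h3, by omega⟩
    simp only [this]
  rw [Finset.sum_congr rfl e2]
  have e3 : ∑ t ∈ range M, (if b (i0 + t) = false ∧ a (i0 + t) ≤ (M : ℤ) - r then (1 : ℤ) else 0) =
      ∑ t ∈ range M, (if b (i0 + t) = true ∧ a (i0 + t) < (M : ℤ) - r then (1 : ℤ) else 0) := by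
    have h3 := Finset.sum_range_sub (fun t : ℕ => min (a (i0 + t)) ((M : ℤ) - r)) M
    have h4 : min (a (i0 + (M : ℕ))) ((M : ℤ) - r) - min (a (i0 + (0 : ℕ))) ((M : ℤ) - r) = 0 := by
      rw [hA, Nat.cast_zero, add_zero, hi0, min_self, min_eq_right (by omega)]
      ring
    rw [h4] at h3
    have h5 : ∀ t ∈ range M, (min (a (i0 + ((t + 1 : ℕ) : ℤ))) ((M : ℤ) - r) -
        min (a (i0 + t)) ((M : ℤ) - r)) =
        (if b (i0 + t) = true ∧ a (i0 + t) < (M : ℤ) - r then (1 : ℤ) else 0) -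
        (if b (i0 + t) = false ∧ a (i0 + t) ≤ (M : ℤ) - r then (1 : ℤ) else 0) := by
      intro t _
      have e : i0 + ((t + 1 : ℕ) : ℤ) = (i0 + t) + 1 := by push_cast; ring
      rw [e, hS]
      cases hbt : b (i0 + t) with
      | true =>
        simp only [if_true, true_and, reduceCtorEq, false_and, if_false]
        split_ifs with h6
        · rw [min_eq_left (by omega), min_eq_left (by omega)]; ring
        · rw [min_eq_right (by omega), min_eq_right (by omega)]; ring
      | false =>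
        simp only [reduceCtorEq, if_false, false_and, true_and]
        split_ifs with h6
        · rw [min_eq_left (by omega), min_eq_left (by omega)]; ring
        · rw [min_eq_right (by omega), min_eq_right (by omega)]; ring
    rw [Finset.sum_congr rfl h5, Finset.sum_sub_distrib] at h3
    linarith
  rw [e3, ← Finset.sum_add_distrib]
  have e4 : ∑ t ∈ range M, (if b (i0 + t) = true then (1 : ℤ) else 0) = (M : ℤ) - r := by
    have h3 := hA i0
    rw [hi0] at h3
    rw [← h3, ha, wk]
    rw [← Finset.sum_range_reflect]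
    apply Finset.sum_congr rfl
    intro t ht
    rw [Finset.mem_range] at ht
    have e : i0 + ((M - 1 - t : ℕ) : ℤ) = i0 + M - 1 - t := by omega
    rw [e]
  rw [← e4]
  apply Finset.sum_le_sum
  intro t _
  by_cases h3 : b (i0 + t) = true
  · simp only [h3, true_and, if_true]
    split_ifs <;> omega
  · simp [h3]

end Pool.Agent.H88.KN
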