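import Pool.Agent.H88.KN.Targets

namespace Pool.Agent.H88.KN

open Finset

theorem pf_WA : T_WA := by
  intro M b hb i
  unfold wk
  have h : ∀ t ∈ range M, (if b (i + M - 1 - t) = true then (1 : ℤ) else 0) =
      1 - (if b (i - 1 - t) = true then 1 else 0) := by
    intro t _
    have e : i + (M : ℤ) - 1 - t = (i - 1 - t) + M := by ring
    rw [e, hb]
    cases b (i - 1 - t) <;> simp
  rw [Finset.sum_congr rfl h, Finset.sum_sub_distrib]
  simp

end Pool.Agent.H88.KN
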