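import Pool.Agent.H12.KN.RC
import Pool.Agent.H12.KN.RS
import Pool.Agent.H19.KN.EC
import Pool.Agent.H19.KN.TG
import Pool.Agent.H19.KN.TL
import Pool.Agent.H19.KN.WB
import Pool.Agent.H20.KN.PG
import Pool.Agent.H20.KN.PT
import Pool.Agent.H20.KN.SM
import Pool.Agent.H33.KN.ND
import Pool.Agent.H33.KN.PL
import Pool.Agent.H33.KN.XA
import Pool.Agent.H34.KN.RD
import Pool.Agent.H47.KN.XC
import Pool.Agent.H47.KN.XD
import Pool.Agent.H47.KN.XP
import Pool.Agent.H48.KN.NC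
import Pool.Agent.H50.KN.EA
import Pool.Agent.H56.KN.WS
import Pool.Agent.H58.KN.EQ
import Pool.Agent.H58.KN.SL
import Pool.Agent.H65.KN.EX
import Pool.Agent.H65.KN.PK
import Pool.Agent.H65.KN.WE
import Pool.Agent.H87.KN.NB
import Pool.Agent.H87.KN.XB
import Pool.Agent.H88.KN.CC
import Pool.Agent.H88.KN.IM
import Pool.Agent.H88.KN.LY
import Pool.Agent.H88.KN.NA
import Pool.Agent.H88.KN.NS
import Pool.Agent.H88.KN.NV
import Pool.Agent.H88.KN.NW
import Pool.Agent.H88.KN.PB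
import Pool.Agent.H88.KN.RA
import Pool.Agent.H88.KN.RB
import Pool.Agent.H88.KN.UC
import Pool.Agent.H88.KN.WA
import Pool.Agent.H88.KN.FN

/-!
MP_b5bf4a_co, dense range: all modules together (helper88).
-/

namespace Pool.Agent.H88.KN

theorem all_WS : T_WS := Pool.Agent.H56.KN.pf_WS
theorem all_WA : T_WA := Pool.Agent.H88.KN.pf_WA
theorem all_UC : T_UC := Pool.Agent.H88.KN.pf_UC all_WS all_WA
theorem all_EX : T_EX := Pool.Agent.H65.KN.pf_EX
theorem all_EC : T_EC := Pool.Agent.H19.KN.pf_EC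
theorem all_PK : T_PK := Pool.Agent.H65.KN.pf_PK all_EX all_EC
theorem all_TG : T_TG := Pool.Agent.H19.KN.pf_TG
theorem all_TL : T_TL := Pool.Agent.H19.KN.pf_TL
theorem all_WB : T_WB := Pool.Agent.H19.KN.pf_WB
theorem all_IM : T_IM := Pool.Agent.H88.KN.pf_IM all_WS all_WA all_UC all_PK all_TG
theorem all_SM : T_SM := Pool.Agent.H20.KN.pf_SM all_IM
theorem all_PG : T_PG := Pool.Agent.H20.KN.pf_PG all_WS all_TL
theorem all_WE : T_WE := Pool.Agent.H65.KN.pf_WE
theorem all_PT : T_PT := Pool.Agent.H20.KN.pf_PT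
theorem all_EA : T_EA := Pool.Agent.H50.KN.pf_EA
theorem all_CC : T_CC := Pool.Agent.H88.KN.pf_CC all_WE all_PT all_EA
theorem all_PL : T_PL := Pool.Agent.H33.KN.pf_PL all_PG all_CC all_EA
theorem all_LY : T_LY := Pool.Agent.H88.KN.pf_LY
theorem all_EQ : T_EQ := Pool.Agent.H58.KN.pf_EQ
theorem all_SL : T_SL := Pool.Agent.H58.KN.pf_SL
theorem all_RA : T_RA := Pool.Agent.H88.KN.pf_RA
theorem all_RB : T_RB := Pool.Agent.H88.KN.pf_RB
theorem all_RC : T_RC := Pool.Agent.H12.KN.pf_RC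
theorem all_RD : T_RD := Pool.Agent.H34.KN.pf_RD
theorem all_RS : T_RS := Pool.Agent.H12.KN.pf_RS all_SL all_RA all_RB all_RC all_RD
theorem all_NA : T_NA := Pool.Agent.H88.KN.pf_NA
theorem all_NB : T_NB := Pool.Agent.H87.KN.pf_NB
theorem all_NC : T_NC := Pool.Agent.H48.KN.pf_NC
theorem all_ND : T_ND := Pool.Agent.H33.KN.pf_ND
theorem all_NV : T_NV := Pool.Agent.H88.KN.pf_NV all_NA all_ND
theorem all_NW : T_NW := Pool.Agent.H88.KN.pf_NW
theorem all_NS : T_NS := Pool.Agent.H88.KN.pf_NS all_NA all_NB all_NC all_NV all_NW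
theorem all_XA : T_XA := Pool.Agent.H33.KN.pf_XA
theorem all_XD : T_XD := Pool.Agent.H88.KN.pf_XD
theorem all_XB : T_XB := Pool.Agent.H87.KN.pf_XB
theorem all_XC : T_XC := Pool.Agent.H88.KN.pf_XC all_XB all_XD

theorem mods : Mods where
  sm := all_SM
  pl := all_PL
  wb := all_WB
  ly := all_LY
  eq := all_EQ
  ea := all_EA
  rs := all_RS
  ns := all_NS
  nc := all_NC
  xa := all_XA
  xd := all_XD
  xc := all_XC
  nb := all_NB

end Pool.Agent.H88.KN
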