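import Mathlib

/-!
MP_b5bf4a_co, dense range: definitions (helper88).
-/

namespace Pool.Agent.H88.KN

open Finset

/-- number of `true` letters in the window `[i - M, i)` -/
def wk (M : ℕ) (b : ℤ → Bool) (i : ℤ) : ℤ := ∑ t ∈ range M, if b (i - 1 - t) = true then 1 else 0

/-- antiperiodic words on the integers -/
def Anti (M : ℕ) (b : ℤ → Bool) : Prop := ∀ l, b (l + M) = !b l

/-- antiperiodic words on the cycle of length `2M` -/
def AntiZ (M : ℕ) (b : ZMod (2 * M) → Bool) : Prop := ∀ z, b (z + (M : ZMod (2 * M))) = !b z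

/-- number of `true` letters in the window of length `M` before `z` -/
def wz (M : ℕ) (b : ZMod (2 * M) → Bool) (z : ZMod (2 * M)) : ℤ :=
  ∑ t ∈ range M, if b (z - 1 - (t : ZMod (2 * M))) = true then 1 else 0

/-- negated word -/
def neg {α : Type*} (b : α → Bool) : α → Bool := fun z => !b z

/-- a word of length `M` as a function on `ℕ` -/
def wN {M : ℕ} (w : Fin M → Bool) (l : ℕ) : Bool := if h : l < M then w ⟨l, h⟩ else false

/-- antiperiodic extension of a word of length `M` to the cycle -/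
def ext {M : ℕ} (w : Fin M → Bool) (z : ZMod (2 * M)) : Bool :=
  if z.val < M then wN w z.val else !(wN w (z.val - M))

/-- number of agreements of two words -/
def agr {M : ℕ} (w w' : Fin M → Bool) : ℕ := (univ.filter (fun l => w l = w' l)).card

/-- no three times at which the first word reads `+ - +` and the second one `- + -` -/
def NoAlt {M : ℕ} (w w' : Fin M → Bool) : Prop :=
  ∀ l1 l2 l3 : Fin M, l1 < l2 → l2 < l3 → w l1 = true → w' l1 = false → w l2 = false →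
    w' l2 = true → w l3 = true → w' l3 = false → False

variable (M : ℕ) [NeZero M]

/-- the kernel: number of common points of two windows of length `j` at distance `z` -/
noncomputable def T (j : ℕ) (z : ZMod (2 * M)) : ℝ :=
  ∑ y : ZMod (2 * M), if y.val < j ∧ (y + z).val < j then 1 else 0

/-- the measures of Lemma A -/
structure IsMu (r : ℕ) (b : ZMod (2 * M) → Bool) (μ : ZMod (2 * M) → ℝ) : Prop where
  nonneg : ∀ z, 0 ≤ μ z
  mass : ∑ z, μ z ≤ 1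
  supp : ∀ z, μ z ≠ 0 → b (z - 1) = true ∧ b z = false
  dom : ∀ x, (wz M b x : ℝ) - r ≤ ∑ u, μ u * T M (M - r) (x - u)

/-- sequences of positions: `ρ τ v` is the position of `v` in the `τ`-th ordering -/
structure RankSeq {V : Type*} [Fintype V] (N : ℕ) (ρ : ℕ → V → ℕ) : Prop where
  inj : ∀ τ ≤ N, Function.Injective (ρ τ)
  lt : ∀ τ ≤ N, ∀ v, ρ τ v < Fintype.card V
  up : ∀ τ < N, ∀ v, ρ (τ + 1) v ≤ ρ τ v + 1
  down : ∀ τ < N, ∀ v, ρ τ v ≤ ρ (τ + 1) v + 1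
  last : ∀ v, ρ 0 v + ρ N v + 1 = Fintype.card V
  order : ∀ v w, ∀ τ1 τ2 τ3, τ1 < τ2 → τ2 < τ3 → τ3 ≤ N →
    ¬ (ρ τ1 v < ρ τ1 w ∧ ρ τ2 w < ρ τ2 v ∧ ρ τ3 v < ρ τ3 w)

/-- the quadratic form counting (ordered) related pairs separated by a random set -/
noncomputable def FF {V : Type*} [Fintype V] (rel : V → V → Prop) (lam : V → ℝ) : ℝ := by
  classical
  exact ∑ v, ∑ w, if rel v w then lam v * (1 - lam w) else 0

/-- node sequences of the piecewise linear path -/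
structure NodeSeq {V : Type*} [Fintype V] (rel : V → V → Prop) (K : ℝ) (H : ℕ)
    (ν : ℕ → V → ℝ) : Prop where
  first : ∀ v, ν 0 v = 0 ∨ ν 0 v = 1
  last : ∀ v, ν H v = 1 - ν 0 v
  vals : ∀ τ ≤ H, ∀ v, ν τ v = 0 ∨ ν τ v = 1 / 2 ∨ ν τ v = 1
  half : ∀ τ ≤ H, ∀ v w, v ≠ w → ν τ v = 1 / 2 → ν τ w ≠ 1 / 2
  seg : ∀ τ < H, ∀ v w, v ≠ w → ¬ (ν τ v < ν (τ + 1) v ∧ ν τ w < ν (τ + 1) w) ∧
    ¬ (ν (τ + 1) v < ν τ v ∧ ν (τ + 1) w < ν τ w)
  cut : ∀ τ ≤ H, FF rel (ν τ) ≤ K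
  var : ∀ τ < H, ∀ s : ℝ, 0 ≤ s → s ≤ 1 →
    (∑ v, ((1 - s) * ν τ v + s * ν (τ + 1) v) - (Fintype.card V : ℝ) / 2) ^ 2 +
      ∑ v, ((1 - s) * ν τ v + s * ν (τ + 1) v) * (1 - ((1 - s) * ν τ v + s * ν (τ + 1) v)) ≤ 1 / 2
  order : ∀ v w, v ≠ w → ∀ τ1 τ2 τ3, τ1 < τ2 → τ2 < τ3 → τ3 ≤ H →
    ¬ (ν τ1 w < ν τ1 v ∧ ν τ2 v < ν τ2 w ∧ ν τ3 w < ν τ3 v)

/-- the path hypotheses of the bound -/
structure IsPath {V : Type*} [Fintype V] (rel : V → V → Prop) (K : ℝ) (lam : ℝ → V → ℝ) :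
    Prop where
  cont : ∀ v, Continuous (fun t => lam t v)
  mem : ∀ t v, 0 ≤ lam t v ∧ lam t v ≤ 1
  first : ∀ v, lam 0 v = 0 ∨ lam 0 v = 1
  last : ∀ v, lam 1 v = 1 - lam 0 v
  cut : ∀ t, 0 ≤ t → t ≤ 1 → FF rel (lam t) ≤ K
  var : ∀ t, 0 ≤ t → t ≤ 1 → (∑ v, lam t v - (Fintype.card V : ℝ) / 2) ^ 2 +
    ∑ v, lam t v * (1 - lam t v) ≤ 1 / 2
  order : ∀ v w, v ≠ w → ∀ t1 t2 t3, 0 ≤ t1 → t1 < t2 → t2 < t3 → t3 ≤ 1 →
    ¬ (lam t2 v < lam t1 v ∧ lam t2 v < lam t3 v ∧ lam t1 w < lam t2 w ∧ lam t3 w < lam t2 w)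

end Pool.Agent.H88.KN
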