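import Pool.Agent.H88.KN.Targets

/-!
MP_b5bf4a_co, dense range: the bound along a path (helper88).
-/

namespace Pool.Agent.H88.KN

open Finset Pool.Agent.H66.GG

/-- indicator of a letter -/
noncomputable def ind1 (c : Bool) : ℝ := if c = true then 1 else 0

lemma agr_eq {M : ℕ} (w w' : Fin M → Bool) :
    (agr w w' : ℝ) = ∑ l, (ind1 (w l) * ind1 (w' l) + (1 - ind1 (w l)) * (1 - ind1 (w' l))) := by
  unfold agr
  rw [Finset.card_filter, Nat.cast_sum]
  apply Finset.sum_congr rfl
  intro l _
  unfold ind1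
  cases w l <;> cases w' l <;> simp

/-- expected number of agreements -/
lemma agr_sum {M : ℕ} (pa pb : (Fin M → Bool) → ℝ) (a b : Fin M → ℝ) (ha1 : ∑ w, pa w = 1)
    (hb1 : ∑ w, pb w = 1) (ha : ∀ l, ∑ w, (if w l = true then pa w else 0) = a l)
    (hb : ∀ l, ∑ w, (if w l = true then pb w else 0) = b l) :
    ∑ w, ∑ w', pa w * pb w' * (agr w w' : ℝ) =
      ∑ l, (a l * b l + (1 - a l) * (1 - b l)) := by
  have ea : ∀ l, ∑ w, pa w * ind1 (w l) = a l := by
    intro l
    rw [← ha l]
    apply Finset.sum_congr rfl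
    intro w _
    unfold ind1
    split_ifs <;> simp
  have eb : ∀ l, ∑ w, pb w * ind1 (w l) = b l := by
    intro l
    rw [← hb l]
    apply Finset.sum_congr rfl
    intro w _
    unfold ind1
    split_ifs <;> simp
  have ea' : ∀ l, ∑ w, pa w * (1 - ind1 (w l)) = 1 - a l := by
    intro l
    simp only [mul_sub, mul_one, Finset.sum_sub_distrib]
    rw [ha1, ea l]
  have eb' : ∀ l, ∑ w, pb w * (1 - ind1 (w l)) = 1 - b l := by
    intro l
    simp only [mul_sub, mul_one, Finset.sum_sub_distrib]
    rw [hb1, eb l]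
  calc ∑ w, ∑ w', pa w * pb w' * (agr w w' : ℝ)
      = ∑ w, ∑ w', ∑ l, ((pa w * ind1 (w l)) * (pb w' * ind1 (w' l)) +
          (pa w * (1 - ind1 (w l))) * (pb w' * (1 - ind1 (w' l)))) := by
        apply Finset.sum_congr rfl
        intro w _
        apply Finset.sum_congr rfl
        intro w' _
        rw [agr_eq, Finset.mul_sum]
        apply Finset.sum_congr rfl
        intro l _
        ring
    _ = ∑ l, ∑ w, ∑ w', ((pa w * ind1 (w l)) * (pb w' * ind1 (w' l)) +
          (pa w * (1 - ind1 (w l))) * (pb w' * (1 - ind1 (w' l)))) := by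
        symm
        rw [Finset.sum_comm]
        apply Finset.sum_congr rfl
        intro w _
        rw [Finset.sum_comm]
    _ = ∑ l, (a l * b l + (1 - a l) * (1 - b l)) := by
        apply Finset.sum_congr rfl
        intro l _
        simp only [Finset.sum_add_distrib]
        rw [← Finset.sum_mul_sum, ← Finset.sum_mul_sum, ea l, eb l, ea' l, eb' l]


section assembly

variable {V : Type} [Fintype V] [DecidableEq V]

/-- symmetric form of `FF` -/
lemma two_FF (rel : V → V → Prop) [DecidableRel rel] (hsym : ∀ v w, rel v w → rel w v)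
    (f : V → ℝ) :
    ∑ v, ∑ w, (if rel v w then f v * (1 - f w) + (1 - f v) * f w else 0) = 2 * FF rel f := by
  have e1 : FF rel f = ∑ v, ∑ w, (if rel v w then f v * (1 - f w) else 0) := by
    unfold FF
    apply Finset.sum_congr rfl
    intro v _
    apply Finset.sum_congr rfl
    intro w _
    congr
  have e2 : FF rel f = ∑ v, ∑ w, (if rel v w then (1 - f v) * f w else 0) := by
    rw [e1, Finset.sum_comm]
    apply Finset.sum_congr rfl
    intro v _
    apply Finset.sum_congr rfl
    intro w _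
    have : rel w v ↔ rel v w := ⟨hsym _ _, hsym _ _⟩
    by_cases h : rel v w
    · rw [if_pos h, if_pos (this.2 h)]; ring
    · rw [if_neg h, if_neg (fun h' => h (this.1 h'))]
  rw [two_mul]
  nth_rewrite 1 [e1]
  rw [e2, ← Finset.sum_add_distrib]
  apply Finset.sum_congr rfl
  intro v _
  rw [← Finset.sum_add_distrib]
  apply Finset.sum_congr rfl
  intro w _
  split_ifs <;> simp

/-- sum of the independent agreement probabilities over distinct pairs -/
lemma offdiag_sum (f : V → ℝ) :
    ∑ v, ∑ w, (if v = w then 0 else f v * f w + (1 - f v) * (1 - f w)) =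
      (Fintype.card V : ℝ) ^ 2 / 2 - Fintype.card V +
        2 * ((∑ v, f v - (Fintype.card V : ℝ) / 2) ^ 2 + ∑ v, f v * (1 - f v)) := by
  have e1 : ∀ v, ∑ w, (if v = w then 0 else f v * f w + (1 - f v) * (1 - f w)) =
      ∑ w, (f v * f w + (1 - f v) * (1 - f w)) - (f v * f v + (1 - f v) * (1 - f v)) := by
    intro v
    have k1 := Finset.sum_erase_add (s := univ) (f := fun w =>
      (if v = w then 0 else f v * f w + (1 - f v) * (1 - f w))) (a := v) (mem_univ v)
    have k2 := Finset.sum_erase_add (s := univ) (f := fun w =>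
      f v * f w + (1 - f v) * (1 - f w)) (a := v) (mem_univ v)
    rw [← k1, ← k2, if_pos rfl, add_zero, add_sub_cancel_right]
    apply Finset.sum_congr rfl
    intro w hw
    rw [if_neg (Finset.ne_of_mem_erase hw).symm]
  have e2 : ∀ v, ∑ w, (f v * f w + (1 - f v) * (1 - f w)) =
      f v * (∑ w, f w) + (1 - f v) * ((Fintype.card V : ℝ) - ∑ w, f w) := by
    intro v
    rw [Finset.sum_add_distrib, ← Finset.mul_sum, ← Finset.mul_sum, Finset.sum_sub_distrib]
    simp
  simp only [e1, e2]
  set S := ∑ v, f v with hS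
  set n : ℝ := (Fintype.card V : ℝ) with hn
  have e3 : ∑ v, (f v * S + (1 - f v) * (n - S) - (f v * f v + (1 - f v) * (1 - f v))) =
      ∑ v, (f v * (2 * S - n) + (n - S) - 1 + 2 * (f v * (1 - f v))) := by
    apply Finset.sum_congr rfl
    intro v _
    ring
  rw [e3, Finset.sum_add_distrib, Finset.sum_sub_distrib, Finset.sum_add_distrib,
    ← Finset.sum_mul, ← Finset.mul_sum]
  simp only [Finset.sum_const, Finset.card_univ, nsmul_eq_mul]
  rw [← hS, ← hn]
  ring

/-- the final computation -/
lemma assemble (rel : V → V → Prop) [DecidableRel rel] (hsym : ∀ v w, rel v w → rel w v)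
    (hirr : ∀ v, ¬ rel v v) {M : ℕ} (hM : 1 ≤ M) (r K κ : ℝ) (f : Fin M → V → ℝ)
    (hcut : ∀ l, FF rel (f l) ≤ K)
    (hvar : ∀ l, (∑ v, f l v - (Fintype.card V : ℝ) / 2) ^ 2 + ∑ v, f l v * (1 - f l v) ≤ κ)
    (P : V → V → ℝ) (hP0 : ∀ v w, 0 ≤ P v w)
    (hP : ∀ v w, v ≠ w →
      M - r - ∑ l, (f l v * f l w + (1 - f l v) * (1 - f l w)) ≤ P v w)
    (hPs : ∑ v, ∑ w, P v w ≤ (M - r) ^ 2 * (Fintype.card V : ℝ) ^ 2 / (2 * M)) :
    (∑ v, ∑ w, (if rel v w then (1 : ℝ) else 0)) * r ≤
      2 * M * K + (Fintype.card V : ℝ) ^ 2 * r ^ 2 / (2 * M) - Fintype.card V * r +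
        2 * κ * M := by
  set n : ℝ := (Fintype.card V : ℝ) with hn
  set ag : V → V → ℝ := fun v w => ∑ l, (f l v * f l w + (1 - f l v) * (1 - f l w)) with hag
  have hMpos : (0 : ℝ) < M := by exact_mod_cast hM
  -- the cut part
  have c1 : ∑ v, ∑ w, (if rel v w then (M : ℝ) - ag v w else 0) ≤ 2 * M * K := by
    have e1 : ∀ v w, (if rel v w then (M : ℝ) - ag v w else 0) =
        ∑ l, (if rel v w then f l v * (1 - f l w) + (1 - f l v) * f l w else 0) := by
      intro v w
      by_cases h : rel v w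
      · simp only [if_pos h]
        have : (M : ℝ) = ∑ _l : Fin M, (1 : ℝ) := by simp
        rw [this, hag, ← Finset.sum_sub_distrib]
        apply Finset.sum_congr rfl
        intro l _
        ring
      · simp only [if_neg h, Finset.sum_const_zero]
    simp only [e1]
    have e2 : ∑ v, ∑ w, ∑ l, (if rel v w then f l v * (1 - f l w) + (1 - f l v) * f l w else 0) =
        ∑ l, ∑ v, ∑ w, (if rel v w then f l v * (1 - f l w) + (1 - f l v) * f l w else 0) := by
      symm
      rw [Finset.sum_comm]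
      apply Finset.sum_congr rfl
      intro v _
      rw [Finset.sum_comm]
    rw [e2]
    calc ∑ l, ∑ v, ∑ w, (if rel v w then f l v * (1 - f l w) + (1 - f l v) * f l w else 0)
        = ∑ l, 2 * FF rel (f l) := by
          apply Finset.sum_congr rfl
          intro l _
          exact two_FF rel hsym (f l)
      _ ≤ ∑ _l : Fin M, 2 * K := by
          apply Finset.sum_le_sum
          intro l _
          linarith [hcut l]
      _ = 2 * M * K := by simp; ring
  -- the excess part
  have c2 : ∑ v, ∑ w, (if rel v w then ag v w - (M - r) else 0) ≤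
      ∑ v, ∑ w, (if v = w then 0 else ag v w - (M - r)) + ∑ v, ∑ w, P v w := by
    rw [← Finset.sum_add_distrib]
    apply Finset.sum_le_sum
    intro v _
    rw [← Finset.sum_add_distrib]
    apply Finset.sum_le_sum
    intro w _
    have h0 := hP0 v w
    by_cases h : v = w
    · subst h
      rw [if_neg (hirr v), if_pos rfl]
      linarith
    · rw [if_neg h]
      have h1 := hP v w h
      split_ifs
      · linarith
      · linarith
  have c3 : ∑ v, ∑ w, (if v = w then 0 else ag v w - (M - r)) ≤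
      M * (n ^ 2 / 2 - n + 2 * κ) - (M - r) * (n * (n - 1)) := by
    have e1 : ∀ v w, (if v = w then 0 else ag v w - ((M : ℝ) - r)) =
        ∑ l, (if v = w then 0 else f l v * f l w + (1 - f l v) * (1 - f l w)) -
          (if v = w then 0 else ((M : ℝ) - r)) := by
      intro v w
      by_cases h : v = w
      · simp only [if_pos h, Finset.sum_const_zero, sub_zero]
      · simp only [if_neg h, hag]
    simp only [e1, Finset.sum_sub_distrib]
    have e2 : ∑ v, ∑ w, ∑ l, (if v = w then 0 else f l v * f l w + (1 - f l v) * (1 - f l w)) =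
        ∑ l, ∑ v, ∑ w, (if v = w then 0 else f l v * f l w + (1 - f l v) * (1 - f l w)) := by
      symm
      rw [Finset.sum_comm]
      apply Finset.sum_congr rfl
      intro v _
      rw [Finset.sum_comm]
    have e3 : ∑ v : V, ∑ w : V, (if v = w then 0 else ((M : ℝ) - r)) =
        (M - r) * (n * (n - 1)) := by
      have : ∀ v : V, ∑ w : V, (if v = w then 0 else ((M : ℝ) - r)) = (M - r) * (n - 1) := by
        intro v
        have k1 : ∀ w : V, (if v = w then 0 else ((M : ℝ) - r)) =
            ((M : ℝ) - r) - (if v = w then ((M : ℝ) - r) else 0) := by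
          intro w
          split_ifs <;> simp
        simp only [k1, Finset.sum_sub_distrib, Finset.sum_const, Finset.card_univ, nsmul_eq_mul,
          Finset.sum_ite_eq, Finset.mem_univ, if_true]
        ring
      simp only [this, Finset.sum_const, Finset.card_univ, nsmul_eq_mul]
      ring
    rw [e2, e3]
    have e4 : ∑ l, ∑ v, ∑ w, (if v = w then 0 else f l v * f l w + (1 - f l v) * (1 - f l w)) ≤
        ∑ _l : Fin M, (n ^ 2 / 2 - n + 2 * κ) := by
      apply Finset.sum_le_sum
      intro l _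
      rw [offdiag_sum (f l)]
      have := hvar l
      linarith
    have e5 : ∑ _l : Fin M, (n ^ 2 / 2 - n + 2 * κ) = M * (n ^ 2 / 2 - n + 2 * κ) := by
      rw [Finset.sum_const, Finset.card_univ, Fintype.card_fin, nsmul_eq_mul]
    linarith
  have c4 : (∑ v, ∑ w, (if rel v w then (1 : ℝ) else 0)) * r =
      ∑ v, ∑ w, (if rel v w then (M : ℝ) - ag v w else 0) +
        ∑ v, ∑ w, (if rel v w then ag v w - (M - r) else 0) := by
    rw [Finset.sum_mul, ← Finset.sum_add_distrib]
    apply Finset.sum_congr rfl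
    intro v _
    rw [Finset.sum_mul, ← Finset.sum_add_distrib]
    apply Finset.sum_congr rfl
    intro w _
    split_ifs
    · ring
    · ring
  rw [c4]
  have c5 : M * (n ^ 2 / 2 - n + 2 * κ) - (M - r) * (n * (n - 1)) +
      (M - r) ^ 2 * n ^ 2 / (2 * M) = n ^ 2 * r ^ 2 / (2 * M) - n * r + 2 * κ * M := by
    have hM0 : (M : ℝ) ≠ 0 := hMpos.ne'
    field_simp
    ring
  linarith

end assembly

lemma ext_cast_lt {M : ℕ} [NeZero M] (w : Fin M → Bool) {l : ℕ} (hl : l < M) :
    ext w (l : ZMod (2 * M)) = w ⟨l, hl⟩ := by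
  have h1 : ((l : ZMod (2 * M))).val = l := ZMod.val_natCast_of_lt (by omega)
  unfold ext wN
  rw [h1, if_pos hl, dif_pos hl]

lemma ext_cast_M {M : ℕ} [NeZero M] (w : Fin M → Bool) (h0 : 0 < M) :
    ext w (M : ZMod (2 * M)) = !(w ⟨0, h0⟩) := by
  have h1 : ((M : ZMod (2 * M))).val = M := ZMod.val_natCast_of_lt (by omega)
  unfold ext wN
  rw [h1, if_neg (lt_irrefl _), Nat.sub_self, dif_pos h0]

/-- two letters at the ends of an empty gap agree -/
lemma ext_gap {M : ℕ} [NeZero M] {V : Type} [Fintype V] {rel : V → V → Prop} {K : ℝ}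
    {lam : ℝ → V → ℝ} (hp : IsPath rel K lam) {γ : Fin M → ℝ}
    (hγ : γ ∈ stdSimplex ℝ (Fin M)) {i : Fin M} (hi : γ i = 0) (x : V) (w : Fin M → Bool)
    (hw : ∃ u : ℝ, 0 ≤ u ∧ u < 1 ∧ ∀ l, (w l = true ↔
      u < lam (∑ i ∈ univ.filter (· < l), γ i) x)) :
    ext w ((i.val : ℕ) : ZMod (2 * M)) = ext w ((i.val + 1 : ℕ) : ZMod (2 * M)) := by
  obtain ⟨u, u0, u1, hu⟩ := hw
  have hM : 0 < M := Nat.pos_of_ne_zero (NeZero.ne M)
  by_cases h : i.val + 1 < M
  · rw [ext_cast_lt w i.isLt, ext_cast_lt w h]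
    have e : ∑ k ∈ univ.filter (· < (⟨i.val + 1, h⟩ : Fin M)), γ k =
        ∑ k ∈ univ.filter (· < i), γ k := by
      have : univ.filter (· < (⟨i.val + 1, h⟩ : Fin M)) = insert i (univ.filter (· < i)) := by
        ext k
        simp only [mem_filter, mem_univ, true_and, mem_insert, Fin.lt_def, Fin.ext_iff]
        omega
      rw [this, Finset.sum_insert (by simp), hi, zero_add]
    have k1 := hu i
    have k2 := hu ⟨i.val + 1, h⟩
    rw [e] at k2
    have k3 : (w ⟨i.val, i.isLt⟩ = true) ↔ (w ⟨i.val + 1, h⟩ = true) := k1.trans k2.symm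
    exact Bool.eq_iff_iff.2 k3
  · have hi1 : i.val + 1 = M := by have := i.isLt; omega
    rw [hi1, ext_cast_lt w i.isLt, ext_cast_M w hM]
    have e1 : ∑ k ∈ univ.filter (· < i), γ k = 1 := by
      have h1 := hγ.2
      have : (univ : Finset (Fin M)) = insert i (univ.filter (· < i)) := by
        ext k
        simp only [mem_filter, mem_univ, true_and, mem_insert, Fin.lt_def, Fin.ext_iff, true_iff]
        have := k.isLt
        omega
      rw [this, Finset.sum_insert (by simp), hi, zero_add] at h1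
      exact h1
    have e0 : ∑ k ∈ univ.filter (· < (⟨0, hM⟩ : Fin M)), γ k = 0 := by
      apply Finset.sum_eq_zero
      intro k hk
      simp [Fin.lt_def] at hk
    have k1 := hu i
    have k2 := hu ⟨0, hM⟩
    rw [e1, hp.last] at k1
    rw [e0] at k2
    rcases hp.first x with h0 | h0
    · rw [h0] at k1 k2
      have a1 : w i = true := k1.2 (by linarith)
      have a2 : ¬ (w ⟨0, hM⟩ = true) := fun h => by have := k2.1 h; linarith
      rw [Bool.not_eq_true] at a2
      rw [a2]
      exact a1
    · rw [h0] at k1 k2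
      have a1 : ¬ (w i = true) := fun h => by have := k1.1 h; linarith
      have a2 : w ⟨0, hM⟩ = true := k2.2 u1
      rw [Bool.not_eq_true] at a1
      rw [a2]
      exact a1

lemma T_nonneg (M : ℕ) [NeZero M] (j : ℕ) (z : ZMod (2 * M)) : 0 ≤ T M j z := by
  unfold T
  apply Finset.sum_nonneg
  intro y _
  split_ifs <;> norm_num

/-- samples of different points are compatible -/
lemma noAlt_of_path {M : ℕ} {V : Type} [Fintype V] {rel : V → V → Prop} {K : ℝ}
    {lam : ℝ → V → ℝ} (hp : IsPath rel K lam) {γ : Fin M → ℝ}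
    (hγ : γ ∈ stdSimplex ℝ (Fin M)) {x y : V} (hxy : x ≠ y) (w w' : Fin M → Bool)
    (hw : ∃ u : ℝ, 0 ≤ u ∧ u < 1 ∧ ∀ l, (w l = true ↔
      u < lam (∑ i ∈ univ.filter (· < l), γ i) x))
    (hw' : ∃ u : ℝ, 0 ≤ u ∧ u < 1 ∧ ∀ l, (w' l = true ↔
      u < lam (∑ i ∈ univ.filter (· < l), γ i) y)) : NoAlt w w' := by
  obtain ⟨u, _, _, hu⟩ := hw
  obtain ⟨u', _, _, hu'⟩ := hw'
  intro l1 l2 l3 h12 h23 a1 b1 a2 b2 a3 b3
  have mono : ∀ l l' : Fin M, l < l' → ∑ i ∈ univ.filter (· < l), γ i ≤
      ∑ i ∈ univ.filter (· < l'), γ i := by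
    intro l l' hll
    apply Finset.sum_le_sum_of_subset_of_nonneg
    · intro k hk
      simp only [mem_filter, mem_univ, true_and] at hk ⊢
      exact hk.trans hll
    · intro k _ _
      exact hγ.1 k
  have t0 : 0 ≤ ∑ i ∈ univ.filter (· < l1), γ i := Finset.sum_nonneg (fun k _ => hγ.1 k)
  have t1 : ∑ i ∈ univ.filter (· < l3), γ i ≤ 1 := by
    rw [← hγ.2]
    exact Finset.sum_le_sum_of_subset_of_nonneg (Finset.filter_subset _ _)
      (fun k _ _ => hγ.1 k)
  have e1 := (hu l1).1 a1
  have e2 : lam (∑ i ∈ univ.filter (· < l2), γ i) x ≤ u := by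
    by_contra h
    have := (hu l2).2 (lt_of_not_ge h)
    rw [a2] at this
    exact absurd this (by simp)
  have e3 := (hu l3).1 a3
  have f1 : lam (∑ i ∈ univ.filter (· < l1), γ i) y ≤ u' := by
    by_contra h
    have := (hu' l1).2 (lt_of_not_ge h)
    rw [b1] at this
    exact absurd this (by simp)
  have f2 := (hu' l2).1 b2
  have f3 : lam (∑ i ∈ univ.filter (· < l3), γ i) y ≤ u' := by
    by_contra h
    have := (hu' l3).2 (lt_of_not_ge h)
    rw [b3] at this
    exact absurd this (by simp)
  have s12 : ∑ i ∈ univ.filter (· < l1), γ i < ∑ i ∈ univ.filter (· < l2), γ i := by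
    refine lt_of_le_of_ne (mono _ _ h12) ?_
    intro h
    rw [h] at e1
    linarith
  have s23 : ∑ i ∈ univ.filter (· < l2), γ i < ∑ i ∈ univ.filter (· < l3), γ i := by
    refine lt_of_le_of_ne (mono _ _ h23) ?_
    intro h
    rw [← h] at e3
    linarith
  exact hp.order x y hxy _ _ _ t0 s12 s23 t1 ⟨by linarith, by linarith, by linarith, by linarith⟩

/-- every residue is `k` or `k + M` with `1 ≤ k ≤ M` -/
lemma residue (M : ℕ) [NeZero M] (z : ZMod (2 * M)) : ∃ i : Fin M,
    z = ((i.val + 1 : ℕ) : ZMod (2 * M)) ∨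
      z = ((i.val + 1 : ℕ) : ZMod (2 * M)) + (M : ZMod (2 * M)) := by
  have hM : 0 < M := Nat.pos_of_ne_zero (NeZero.ne M)
  have hz : z.val < 2 * M := ZMod.val_lt z
  have e : z = ((z.val : ℕ) : ZMod (2 * M)) := by simp
  have h2M : (M : ZMod (2 * M)) + (M : ZMod (2 * M)) = 0 := by
    have : ((2 * M : ℕ) : ZMod (2 * M)) = 0 := ZMod.natCast_self _
    push_cast at this
    linear_combination this
  rcases Nat.eq_zero_or_pos z.val with h | h
  · refine ⟨⟨M - 1, by omega⟩, Or.inr ?_⟩
    have : (⟨M - 1, by omega⟩ : Fin M).val + 1 = M := by simp; omega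
    rw [this, h2M, e, h, Nat.cast_zero]
  · by_cases h' : z.val ≤ M
    · refine ⟨⟨z.val - 1, by omega⟩, Or.inl ?_⟩
      have : (⟨z.val - 1, by omega⟩ : Fin M).val + 1 = z.val := by simp; omega
      rw [this]
      exact e
    · refine ⟨⟨z.val - M - 1, by omega⟩, Or.inr ?_⟩
      have : (⟨z.val - M - 1, by omega⟩ : Fin M).val + 1 = z.val - M := by simp; omega
      rw [this, ← Nat.cast_add, Nat.sub_add_cancel (by omega)]
      exact e

/-- the bound along a path, with a general variance constant -/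
theorem path_bound_var (hSM : T_SM) (hPL : T_PL) (hWB : T_WB) (hLY : T_LY) (hEQ : T_EQ)
    (hEA : T_EA) {V : Type} [Fintype V] [DecidableEq V] (rel : V → V → Prop)
    (hsym : ∀ v w, rel v w → rel w v) (hirr : ∀ v, ¬ rel v v) (M r : ℕ) (hM : 1 ≤ M)
    (h1 : M ≤ 2 * r) (h2 : r ≤ M) (K κ : ℝ) (lam : ℝ → V → ℝ) (hp : IsPath rel K lam)
    (hκ : ∀ t, 0 ≤ t → t ≤ 1 → (∑ v, lam t v - (Fintype.card V : ℝ) / 2) ^ 2 +
      ∑ v, lam t v * (1 - lam t v) ≤ κ) :
    (e2 rel univ : ℝ) * r ≤ 2 * M * K + (Fintype.card V : ℝ) ^ 2 * r ^ 2 / (2 * M) -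
      Fintype.card V * r + 2 * κ * M := by
  classical
  haveI : NeZero M := ⟨by omega⟩
  obtain ⟨μ, hμ, heq⟩ := hSM M r h1 h2
  obtain ⟨p, pc, p0, p1, p2, p3⟩ := hLY M
  have hmu : ∀ w : Fin M → Bool, IsMu M r (ext w) (μ (ext w)) := fun w => hμ _ (hEA M w)
  set tt : (Fin M → ℝ) → Fin M → ℝ := fun γ l => ∑ i ∈ univ.filter (· < l), γ i with htt
  set sv : (Fin M → ℝ) → V → Fin M → ℝ := fun γ x l => lam (tt γ l) x with hsv
  set X : (Fin M → ℝ) → V → ZMod (2 * M) → ℝ :=
    fun γ x z => ∑ w, p (sv γ x) w * μ (ext w) z with hX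
  set VV : (Fin M → ℝ) → Fin M → ℝ := fun γ i =>
    ∑ x, (X γ x ((i.val + 1 : ℕ) : ZMod (2 * M)) +
      X γ x (((i.val + 1 : ℕ) : ZMod (2 * M)) + (M : ZMod (2 * M)))) with hVV
  have ttc : ∀ l, Continuous (fun γ => tt γ l) := by
    intro l
    exact continuous_finset_sum _ (fun i _ => continuous_apply i)
  have Xc : ∀ x z, Continuous (fun γ => X γ x z) := by
    intro x z
    apply continuous_finset_sum
    intro w _
    apply Continuous.mul _ continuous_const
    exact (pc w).comp (continuous_pi (fun l => (hp.cont x).comp (ttc l)))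
  have X0 : ∀ γ x z, 0 ≤ X γ x z := fun γ x z =>
    Finset.sum_nonneg (fun w _ => mul_nonneg (p0 _ _) ((hmu w).nonneg z))
  have Vc : Continuous VV := by
    apply continuous_pi
    intro i
    apply continuous_finset_sum
    intro x _
    exact (Xc _ _).add (Xc _ _)
  obtain ⟨γ, hγ, hconst⟩ := hEQ M VV Vc
    (fun γ _ i => Finset.sum_nonneg (fun x _ => add_nonneg (X0 _ _ _) (X0 _ _ _)))
    (by
      intro γ hγ i hi
      apply Finset.sum_eq_zero
      intro x _
      have hz : ∀ w, p (sv γ x) w = 0 ∨ (μ (ext w) ((i.val + 1 : ℕ) : ZMod (2 * M)) = 0 ∧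
          μ (ext w) (((i.val + 1 : ℕ) : ZMod (2 * M)) + (M : ZMod (2 * M))) = 0) := by
        intro w
        by_cases hpw : p (sv γ x) w = 0
        · exact Or.inl hpw
        · right
          have hg := ext_gap hp hγ hi x w (p3 _ _ hpw)
          constructor
          · by_contra hne
            obtain ⟨s1, s2⟩ := (hmu w).supp _ hne
            have e : ((i.val + 1 : ℕ) : ZMod (2 * M)) - 1 = ((i.val : ℕ) : ZMod (2 * M)) := by
              push_cast; ring
            rw [e, hg, s2] at s1
            exact absurd s1 (by simp)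
          · by_contra hne
            obtain ⟨s1, s2⟩ := (hmu w).supp _ hne
            have e : ((i.val + 1 : ℕ) : ZMod (2 * M)) + (M : ZMod (2 * M)) - 1 =
                ((i.val : ℕ) : ZMod (2 * M)) + (M : ZMod (2 * M)) := by
              push_cast; ring
            rw [e, hEA M w, hg] at s1
            rw [hEA M w] at s2
            rw [s2] at s1
            exact absurd s1 (by simp)
      have x1 : X γ x ((i.val + 1 : ℕ) : ZMod (2 * M)) = 0 := by
        apply Finset.sum_eq_zero
        intro w _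
        rcases hz w with h | h
        · rw [h, zero_mul]
        · rw [h.1, mul_zero]
      have x2 : X γ x (((i.val + 1 : ℕ) : ZMod (2 * M)) + (M : ZMod (2 * M))) = 0 := by
        apply Finset.sum_eq_zero
        intro w _
        rcases hz w with h | h
        · rw [h, zero_mul]
        · rw [h.2, mul_zero]
      rw [x1, x2, add_zero])
  have hMpos : (0 : ℝ) < M := by exact_mod_cast hM
  set n : ℝ := (Fintype.card V : ℝ) with hn
  set c := VV γ ⟨0, hM⟩ with hc
  set XX : ZMod (2 * M) → ℝ := fun z => ∑ x, X γ x z with hXX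
  have h2M : (M : ZMod (2 * M)) + (M : ZMod (2 * M)) = 0 := by
    have : ((2 * M : ℕ) : ZMod (2 * M)) = 0 := ZMod.natCast_self _
    push_cast at this
    linear_combination this
  have hXc : ∀ z, XX z + XX (z + (M : ZMod (2 * M))) = c := by
    intro z
    obtain ⟨i, hi | hi⟩ := residue M z
    · have a1 : VV γ i = c := hconst i ⟨0, hM⟩
      rw [hi, ← a1]
      simp only [hXX, hVV, Finset.sum_add_distrib]
    · have a1 : VV γ i = c := hconst i ⟨0, hM⟩
      rw [hi, add_assoc, h2M, add_zero, ← a1]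
      simp only [hXX, hVV, Finset.sum_add_distrib]
      ring
  have hmass : ∀ x, ∑ z, X γ x z ≤ 1 := by
    intro x
    simp only [hX]
    rw [Finset.sum_comm]
    calc ∑ w, ∑ z, p (sv γ x) w * μ (ext w) z = ∑ w, p (sv γ x) w * ∑ z, μ (ext w) z := by
          apply Finset.sum_congr rfl
          intro w _
          rw [Finset.mul_sum]
      _ ≤ ∑ w, p (sv γ x) w * 1 := by
          apply Finset.sum_le_sum
          intro w _
          exact mul_le_mul_of_nonneg_left (hmu w).mass (p0 _ _)
      _ = 1 := by simp only [mul_one]; exact p1 _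
  have hXXs : ∑ z, XX z ≤ n := by
    simp only [hXX]
    rw [Finset.sum_comm]
    calc ∑ x, ∑ z, X γ x z ≤ ∑ _x : V, (1 : ℝ) := Finset.sum_le_sum (fun x _ => hmass x)
      _ = n := by simp [hn]
  have hcM : (M : ℝ) * c ≤ n := by
    have e1 : ∑ z, (XX z + XX (z + (M : ZMod (2 * M)))) = 2 * ∑ z, XX z := by
      have a1 : ∑ z, XX (z + (M : ZMod (2 * M))) = ∑ z, XX z :=
        Equiv.sum_comp (Equiv.addRight (M : ZMod (2 * M))) XX
      rw [Finset.sum_add_distrib, a1]
      ring
    have e2 : ∑ z : ZMod (2 * M), (XX z + XX (z + (M : ZMod (2 * M)))) = 2 * M * c := by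
      rw [Finset.sum_congr rfl (fun z _ => hXc z), Finset.sum_const, Finset.card_univ,
        ZMod.card, nsmul_eq_mul]
      push_cast
      ring
    linarith
  have hc0 : 0 ≤ c := Finset.sum_nonneg (fun x _ => add_nonneg (X0 _ _ _) (X0 _ _ _))
  set P : V → V → ℝ := fun x y =>
    ∑ u, ∑ v, X γ x u * X γ y v * T M (M - r) (u - v + (M : ZMod (2 * M))) with hP
  have hjr : ((M - r : ℕ) : ℝ) = (M : ℝ) - r := by
    rw [Nat.cast_sub h2]
  have hPall : ∑ x, ∑ y, P x y ≤ ((M : ℝ) - r) ^ 2 * n ^ 2 / (2 * M) := by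
    have e1 : ∑ x, ∑ y, P x y =
        ∑ u, ∑ v, XX u * XX v * T M (M - r) (u - v + (M : ZMod (2 * M))) := by
      simp only [hP, hXX]
      calc ∑ x, ∑ y, ∑ u, ∑ v, X γ x u * X γ y v * T M (M - r) (u - v + (M : ZMod (2 * M)))
          = ∑ u, ∑ v, ∑ x, ∑ y, X γ x u * X γ y v *
              T M (M - r) (u - v + (M : ZMod (2 * M))) := by
            have a1 : ∀ x, ∑ y, ∑ u, ∑ v, X γ x u * X γ y v *
                T M (M - r) (u - v + (M : ZMod (2 * M))) = ∑ u, ∑ v, ∑ y, X γ x u * X γ y v *
                T M (M - r) (u - v + (M : ZMod (2 * M))) := by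
              intro x
              rw [Finset.sum_comm]
              apply Finset.sum_congr rfl
              intro u _
              rw [Finset.sum_comm]
            rw [Finset.sum_congr rfl (fun x _ => a1 x), Finset.sum_comm]
            apply Finset.sum_congr rfl
            intro u _
            rw [Finset.sum_comm]
        _ = _ := by
            apply Finset.sum_congr rfl
            intro u _
            apply Finset.sum_congr rfl
            intro v _
            rw [Finset.sum_mul_sum, Finset.sum_mul]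
            apply Finset.sum_congr rfl
            intro x _
            rw [Finset.sum_mul]
    rw [e1]
    refine (hWB M (M - r) (Nat.sub_le _ _) XX c hXc).trans ?_
    rw [hjr]
    have e2 : (M : ℝ) * ((M : ℝ) - r) ^ 2 * c ^ 2 / 2 =
        ((M : ℝ) - r) ^ 2 * (M * c) ^ 2 / (2 * M) := by
      have hM0 : (M : ℝ) ≠ 0 := hMpos.ne'
      field_simp
    rw [e2]
    have e3 : (M * c) ^ 2 ≤ n ^ 2 := by
      apply pow_le_pow_left₀ (mul_nonneg hMpos.le hc0) hcM
    apply div_le_div_of_nonneg_right _ (by positivity)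
    exact mul_le_mul_of_nonneg_left e3 (sq_nonneg _)
  have t0 : ∀ l : Fin M, 0 ≤ tt γ l := fun l => Finset.sum_nonneg (fun k _ => hγ.1 k)
  have t1 : ∀ l : Fin M, tt γ l ≤ 1 := by
    intro l
    rw [← hγ.2]
    exact Finset.sum_le_sum_of_subset_of_nonneg (Finset.filter_subset _ _)
      (fun k _ _ => hγ.1 k)
  have hpair : ∀ x y, x ≠ y → (M : ℝ) - r - ∑ l, (lam (tt γ l) x * lam (tt γ l) y +
      (1 - lam (tt γ l) x) * (1 - lam (tt γ l) y)) ≤ P x y := by
    intro x y hxy
    have ag := agr_sum (p (sv γ x)) (p (sv γ y)) (sv γ x) (sv γ y) (p1 _) (p1 _)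
      (p2 _ (fun l => hp.mem _ _)) (p2 _ (fun l => hp.mem _ _))
    have e1 : (M : ℝ) - r - ∑ l, (lam (tt γ l) x * lam (tt γ l) y +
        (1 - lam (tt γ l) x) * (1 - lam (tt γ l) y)) =
        ∑ w, ∑ w', p (sv γ x) w * p (sv γ y) w' * ((M : ℝ) - r - agr w w') := by
      have e2 : ∑ w, ∑ w', p (sv γ x) w * p (sv γ y) w' * ((M : ℝ) - r) = (M : ℝ) - r := by
        have : ∀ w, ∑ w', p (sv γ x) w * p (sv γ y) w' * ((M : ℝ) - r) =
            p (sv γ x) w * ((M : ℝ) - r) := by
          intro w
          rw [← Finset.sum_mul, ← Finset.mul_sum, p1, mul_one]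
        rw [Finset.sum_congr rfl (fun w _ => this w), ← Finset.sum_mul, p1, one_mul]
      have e4 : ∑ w, ∑ w', p (sv γ x) w * p (sv γ y) w' * ((M : ℝ) - r - agr w w') =
          ∑ w, ∑ w', p (sv γ x) w * p (sv γ y) w' * ((M : ℝ) - r) -
            ∑ w, ∑ w', p (sv γ x) w * p (sv γ y) w' * (agr w w' : ℝ) := by
        rw [← Finset.sum_sub_distrib]
        apply Finset.sum_congr rfl
        intro w _
        rw [← Finset.sum_sub_distrib]
        apply Finset.sum_congr rfl
        intro w' _
        ring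
      rw [e4, e2, ag]
    rw [e1]
    have e3 : P x y = ∑ w, ∑ w', p (sv γ x) w * p (sv γ y) w' *
        ∑ u, ∑ v, μ (ext w) u * μ (ext w') v *
          T M (M - r) (u - v + (M : ZMod (2 * M))) := by
      simp only [hP, hX]
      calc ∑ u, ∑ v, (∑ w, p (sv γ x) w * μ (ext w) u) * (∑ w', p (sv γ y) w' * μ (ext w') v) *
            T M (M - r) (u - v + (M : ZMod (2 * M)))
          = ∑ u, ∑ v, ∑ w, ∑ w', (p (sv γ x) w * p (sv γ y) w' * (μ (ext w) u * μ (ext w') v *
            T M (M - r) (u - v + (M : ZMod (2 * M))))) := by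
            apply Finset.sum_congr rfl
            intro u _
            apply Finset.sum_congr rfl
            intro v _
            rw [Finset.sum_mul_sum, Finset.sum_mul]
            apply Finset.sum_congr rfl
            intro w _
            rw [Finset.sum_mul]
            apply Finset.sum_congr rfl
            intro w' _
            ring
        _ = ∑ w, ∑ w', ∑ u, ∑ v, (p (sv γ x) w * p (sv γ y) w' * (μ (ext w) u * μ (ext w') v *
            T M (M - r) (u - v + (M : ZMod (2 * M))))) := by
            have a1 : ∀ u, ∑ v, ∑ w, ∑ w', (p (sv γ x) w * p (sv γ y) w' *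
                (μ (ext w) u * μ (ext w') v * T M (M - r) (u - v + (M : ZMod (2 * M))))) =
                ∑ w, ∑ w', ∑ v, (p (sv γ x) w * p (sv γ y) w' *
                (μ (ext w) u * μ (ext w') v * T M (M - r) (u - v + (M : ZMod (2 * M))))) := by
              intro u
              rw [Finset.sum_comm]
              apply Finset.sum_congr rfl
              intro w _
              rw [Finset.sum_comm]
            rw [Finset.sum_congr rfl (fun u _ => a1 u), Finset.sum_comm]
            apply Finset.sum_congr rfl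
            intro w _
            rw [Finset.sum_comm]
        _ = _ := by
            apply Finset.sum_congr rfl
            intro w _
            apply Finset.sum_congr rfl
            intro w' _
            rw [Finset.mul_sum]
            apply Finset.sum_congr rfl
            intro u _
            rw [Finset.mul_sum]
    rw [e3]
    apply Finset.sum_le_sum
    intro w _
    apply Finset.sum_le_sum
    intro w' _
    by_cases k1 : p (sv γ x) w = 0
    · rw [k1]; simp
    · by_cases k2 : p (sv γ y) w' = 0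
      · rw [k2]; simp
      · apply mul_le_mul_of_nonneg_left _ (mul_nonneg (p0 _ _) (p0 _ _))
        exact hPL M r h2 μ hμ heq w w'
          (noAlt_of_path hp hγ hxy w w' (p3 _ _ k1) (p3 _ _ k2))
          (noAlt_of_path hp hγ hxy.symm w' w (p3 _ _ k2) (p3 _ _ k1))
  have key := assemble rel hsym hirr hM (r : ℝ) K κ (fun l => lam (tt γ l))
    (fun l => hp.cut _ (t0 l) (t1 l)) (fun l => hκ _ (t0 l) (t1 l)) P
    (fun x y => Finset.sum_nonneg (fun u _ => Finset.sum_nonneg (fun v _ =>
      mul_nonneg (mul_nonneg (X0 _ _ _) (X0 _ _ _)) (T_nonneg _ _ _))))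
    hpair hPall
  have he : (e2 rel univ : ℝ) = ∑ v, ∑ w, (if rel v w then (1 : ℝ) else 0) := by
    unfold e2
    rw [Finset.card_filter, Nat.cast_sum, Fintype.sum_prod_type]
    apply Finset.sum_congr rfl
    intro v _
    apply Finset.sum_congr rfl
    intro w _
    by_cases h : rel v w
    · simp [h]
    · simp [h]
  rw [he]
  exact key

theorem pf_PB (hSM : T_SM) (hPL : T_PL) (hWB : T_WB) (hLY : T_LY) (hEQ : T_EQ) (hEA : T_EA) :
    T_PB := by
  intro V _ _ rel hsym hirr M r hM h1 h2 K lam hp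
  have := path_bound_var hSM hPL hWB hLY hEQ hEA rel hsym hirr M r hM h1 h2 K (1 / 2) lam hp
    (fun t h0 h1 => hp.var t h0 h1)
  linarith

end Pool.Agent.H88.KN
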