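import Pool.Agent.H88.KN.Defs
import Pool.Agent.H66.GG.Final

/-!
MP_b5bf4a_co, dense range: the module statements (helper88).
-/

namespace Pool.Agent.H88.KN

open Finset Pool.Agent.H66.GG

/-! ### words -/

/-- WS -/
def T_WS : Prop := ∀ (M : ℕ) (b : ℤ → Bool), Anti M b → ∀ i : ℤ,
  wk M b (i + 1) = wk M b i + (if b i = true then 1 else -1)

/-- WA -/
def T_WA : Prop := ∀ (M : ℕ) (b : ℤ → Bool), Anti M b → ∀ i : ℤ,
  wk M b (i + M) = M - wk M b i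

/-- UC (count of up-steps at height at least `r`) -/
def T_UC : Prop := ∀ (M r : ℕ), M ≤ 2 * r → r ≤ M → ∀ b : ℤ → Bool, Anti M b → ∀ i0 : ℤ,
  wk M b i0 = r →
  (((Finset.Ico i0 (i0 + 2 * M)).filter (fun i => b i = true ∧ (r : ℤ) ≤ wk M b i)).card : ℤ) ≤
      (M : ℤ) - r

/-- EX, one excursion: two weighted local maxima with mean the midpoint -/
def T_EX : Prop := ∀ (a : ℤ → ℤ), (∀ i, a (i + 1) = a i + 1 ∨ a (i + 1) = a i - 1) →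
  ∀ r s t : ℤ, s < t → a s = r → a t = r → (∀ i, s < i → i < t → r < a i) →
    ∃ p q : ℤ, ∃ α β : ℝ, s < p ∧ p < t ∧ s < q ∧ q < t ∧
      a (p - 1) < a p ∧ a (p + 1) < a p ∧ a (q - 1) < a q ∧ a (q + 1) < a q ∧
      0 ≤ α ∧ 0 ≤ β ∧ α + β = 1 ∧
      ∀ x : ℤ, s ≤ x → x ≤ t →
        (a x : ℝ) - r + (α * |(x : ℝ) - p| + β * |(x : ℝ) - q|) ≤ ((t : ℝ) - s) / 2

/-- EC, number of up-steps of an excursion -/
def T_EC : Prop := ∀ (a : ℤ → ℤ), (∀ i, a (i + 1) = a i + 1 ∨ a (i + 1) = a i - 1) →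
  ∀ r s t : ℤ, s < t → a s = r → a t = r → (∀ i, s < i → i < t → r < a i) →
    2 * (((Finset.Ico s t).filter (fun i => a i < a (i + 1) ∧ r ≤ a i)).card : ℤ) = t - s

/-- PK, all excursions of an interval -/
def T_PK : Prop := ∀ (a : ℤ → ℤ), (∀ i, a (i + 1) = a i + 1 ∨ a (i + 1) = a i - 1) →
  ∀ (r : ℤ) (j : ℕ), 0 < j → ∀ s e : ℤ, s ≤ e → a s ≤ r → a e ≤ r →
    ((Finset.Ico s e).filter (fun i => a i < a (i + 1) ∧ r ≤ a i)).card ≤ j →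
    ∃ μ : ℤ → ℝ, (∀ i, 0 ≤ μ i) ∧
      (∀ i, μ i ≠ 0 → s < i ∧ i < e ∧ a (i - 1) < a i ∧ a (i + 1) < a i) ∧
      (j : ℝ) * ∑ i ∈ Finset.Ico s e, μ i =
        ((Finset.Ico s e).filter (fun i => a i < a (i + 1) ∧ r ≤ a i)).card ∧
      ∀ x : ℤ, s ≤ x → x ≤ e →
        (a x : ℝ) - r ≤ ∑ i ∈ Finset.Ico s e, μ i * max 0 ((j : ℝ) - |(x : ℝ) - i|)

/-! ### the cycle -/

/-- TG -/
def T_TG : Prop := ∀ (M : ℕ) [NeZero M] (j : ℕ), j ≤ M → ∀ x : ℤ,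
  max 0 ((j : ℝ) - |(x : ℝ)|) ≤ T M j (x : ZMod (2 * M))

/-- TL -/
def T_TL : Prop := ∀ (M : ℕ) [NeZero M] (j : ℕ), j ≤ M → ∀ z : ZMod (2 * M),
  ∃ d : ℤ, (d : ZMod (2 * M)) = z ∧ T M j z ≤ max 0 ((j : ℝ) - |(d : ℝ)|)

/-- WB, the quadratic form of a balanced measure -/
def T_WB : Prop := ∀ (M : ℕ) [NeZero M] (j : ℕ), j ≤ M → ∀ (X : ZMod (2 * M) → ℝ) (c : ℝ),
  (∀ z, X z + X (z + (M : ZMod (2 * M))) = c) →
  ∑ u, ∑ v, X u * X v * T M j (u - v + (M : ZMod (2 * M))) ≤ (M : ℝ) * j ^ 2 * c ^ 2 / 2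

/-- IM, existence of the measure -/
def T_IM : Prop := ∀ (M : ℕ) [NeZero M] (r : ℕ), M ≤ 2 * r → r ≤ M →
  ∀ b : ZMod (2 * M) → Bool, AntiZ M b → ∃ μ, IsMu M r b μ

/-- SM, an equivariant choice -/
def T_SM : Prop := ∀ (M : ℕ) [NeZero M] (r : ℕ), M ≤ 2 * r → r ≤ M →
  ∃ μ : (ZMod (2 * M) → Bool) → ZMod (2 * M) → ℝ, (∀ b, AntiZ M b → IsMu M r b (μ b)) ∧
    ∀ b z, μ (neg b) z = μ b (z + (M : ZMod (2 * M)))

/-- PG -/
def T_PG : Prop := ∀ (M : ℕ) [NeZero M] (r : ℕ), r ≤ M → ∀ b e : ZMod (2 * M) → Bool,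
  AntiZ M b → ∀ μb μe : ZMod (2 * M) → ℝ, IsMu M r b μb → IsMu M r e μe →
  ∀ i : ZMod (2 * M),
    (wz M b i : ℝ) + wz M e i - M - r ≤ ∑ u, ∑ v, μe u * μb v * T M (M - r) (u - v)

/-- WE, the walk of an extended word -/
def T_WE : Prop := ∀ (M : ℕ) [NeZero M] (w : Fin M → Bool) (i : ℕ), i ≤ M →
  wz M (ext w) (i : ZMod (2 * M)) =
      ((univ.filter (fun l : Fin M => (w l = true ↔ l.val < i))).card : ℤ)

/-- PT, words without alternation -/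
def T_PT : Prop := ∀ (M : ℕ) (w : Fin M → Bool) (D : Finset (Fin M)),
  (∀ l1 ∈ D, ∀ l2 ∈ D, ∀ l3 ∈ D, l1 < l2 → l2 < l3 → w l1 = true → w l2 = false →
      w l3 = true → False) →
  (∀ l1 ∈ D, ∀ l2 ∈ D, ∀ l3 ∈ D, l1 < l2 → l2 < l3 → w l1 = false → w l2 = true →
      w l3 = false → False) →
    ∃ i ≤ M, (∀ l ∈ D, (w l = true ↔ l.val < i)) ∨ (∀ l ∈ D, (w l = true ↔ ¬ l.val < i))

/-- EA -/
def T_EA : Prop := ∀ (M : ℕ) [NeZero M] (w : Fin M → Bool), AntiZ M (ext w)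

/-- CC, compatible words have a common cell -/
def T_CC : Prop := ∀ (M : ℕ) [NeZero M] (w w' : Fin M → Bool), NoAlt w w' → NoAlt w' w →
  ∃ i : ZMod (2 * M), 2 * (M : ℤ) - agr w w' ≤ wz M (ext w) i + wz M (neg (ext w')) i

/-- PL -/
def T_PL : Prop := ∀ (M : ℕ) [NeZero M] (r : ℕ), r ≤ M →
  ∀ μ : (ZMod (2 * M) → Bool) → ZMod (2 * M) → ℝ, (∀ b, AntiZ M b → IsMu M r b (μ b)) →
    (∀ b z, μ (neg b) z = μ b (z + (M : ZMod (2 * M)))) →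
    ∀ w w' : Fin M → Bool, NoAlt w w' → NoAlt w' w →
      (M : ℝ) - r - agr w w' ≤
        ∑ u, ∑ v, μ (ext w) u * μ (ext w') v * T M (M - r) (u - v + (M : ZMod (2 * M)))

/-! ### layers, equalisation -/

/-- LY: the lengths of the level sets of `u ↦ (u < lam l)_l`, `u ∈ [0,1)` -/
def T_LY : Prop := ∀ (M : ℕ), ∃ p : (Fin M → ℝ) → (Fin M → Bool) → ℝ,
    (∀ w, Continuous (fun lam => p lam w)) ∧ (∀ lam w, 0 ≤ p lam w) ∧
    (∀ lam, ∑ w, p lam w = 1) ∧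
    (∀ lam, (∀ l, 0 ≤ lam l ∧ lam l ≤ 1) → ∀ l, ∑ w, (if w l = true then p lam w else 0) = lam l) ∧
    (∀ lam w, p lam w ≠ 0 → ∃ u : ℝ, 0 ≤ u ∧ u < 1 ∧ ∀ l, (w l = true ↔ u < lam l))

/-- EQ: equalisation -/
def T_EQ : Prop := ∀ (M : ℕ) [NeZero M] (V : (Fin M → ℝ) → Fin M → ℝ), Continuous V →
    (∀ γ ∈ stdSimplex ℝ (Fin M), ∀ i, 0 ≤ V γ i) →
    (∀ γ ∈ stdSimplex ℝ (Fin M), ∀ i, γ i = 0 → V γ i = 0) →
    ∃ γ ∈ stdSimplex ℝ (Fin M), ∀ i i', V γ i = V γ i'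

/-! ### the path -/

/-- PB: the bound along a path -/
def T_PB : Prop := ∀ (V : Type) [Fintype V] [DecidableEq V] (rel : V → V → Prop),
    (∀ v w, rel v w → rel w v) → (∀ v, ¬ rel v v) → ∀ (M r : ℕ), 1 ≤ M → M ≤ 2 * r →
    r ≤ M → ∀ (K : ℝ) (lam : ℝ → V → ℝ), IsPath rel K lam →
    (e2 rel univ : ℝ) * r ≤ 2 * M * K + (Fintype.card V : ℝ) ^ 2 * r ^ 2 / (2 * M) -
      Fintype.card V * r + M

/-! ### geometry -/

/-- SL: generic slopes -/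
def T_SL : Prop := ∀ (C : Finset ℝ), ∃ s : ℕ → ℝ, StrictMono s ∧ (∀ τ, s τ ∉ C) ∧
    (∀ τ < C.card, ∃ c ∈ C, s τ < c ∧ c < s (τ + 1) ∧
      ∀ c' ∈ C, s τ < c' → c' < s (τ + 1) → c' = c) ∧
    (∀ c ∈ C, s 0 < c ∧ c < s C.card)

/-- position of `v` in the direction `(1, s)` -/
noncomputable def rk {V : Type*} [Fintype V] (x y : V → ℝ) (s : ℝ) (v : V) : ℕ := by
  classical
  exact (univ.filter (fun z => x z + s * y z < x v + s * y v)).card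

/-- the critical slopes -/
def Crit {V : Type*} (x y : V → ℝ) (s : ℝ) : Prop := ∃ v w, v ≠ w ∧ slp x y v w = s

/-- RA: ranks at a generic slope -/
def T_RA : Prop := ∀ (V : Type) [Fintype V] [DecidableEq V] (x y : V → ℝ), GenPos x y →
  ∀ s : ℝ, ¬ Crit x y s → Function.Injective (rk x y s) ∧ (∀ v, rk x y s v < Fintype.card V) ∧
    ∀ m : ℕ, ∀ S : Finset V, (∀ v, v ∈ S ↔ rk x y s v < m) → IsSplit x y S

/-- RB: ranks move by at most one across one critical slope -/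
def T_RB : Prop := ∀ (V : Type) [Fintype V] [DecidableEq V] (x y : V → ℝ), GenPos x y →
  ∀ s s' c : ℝ, s < s' → ¬ Crit x y s → ¬ Crit x y s' →
    (∀ c', Crit x y c' → s < c' → c' < s' → c' = c) →
    ∀ v, rk x y s' v ≤ rk x y s v + 1 ∧ rk x y s v ≤ rk x y s' v + 1

/-- RC: order -/
def T_RC : Prop := ∀ (V : Type) [Fintype V] [DecidableEq V] (x y : V → ℝ), GenPos x y →
  ∀ v w, ∀ s1 s2 s3 : ℝ, s1 < s2 → s2 < s3 → ¬ Crit x y s1 → ¬ Crit x y s2 → ¬ Crit x y s3 →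
    ¬ (rk x y s1 v < rk x y s1 w ∧ rk x y s2 w < rk x y s2 v ∧ rk x y s3 v < rk x y s3 w)

/-- RD: reversal -/
def T_RD : Prop := ∀ (V : Type) [Fintype V] [DecidableEq V] (x y : V → ℝ), GenPos x y →
  ∀ s s' : ℝ, (∀ c, Crit x y c → s < c ∧ c < s') →
    ∀ v, rk x y s v + rk x y s' v + 1 = Fintype.card V

/-- RS: the rank sequence of a point set, all of whose prefixes are splits -/
def T_RS : Prop := ∀ (V : Type) [Fintype V] [DecidableEq V] (x y : V → ℝ), GenPos x y →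
    ∃ N : ℕ, ∃ ρ : ℕ → V → ℕ, RankSeq N ρ ∧
      ∀ τ ≤ N, ∀ m : ℕ, ∀ S : Finset V, (∀ v, v ∈ S ↔ ρ τ v < m) → IsSplit x y S

/-- the profile -/
noncomputable def hh (n ρ : ℕ) : ℝ :=
  ((if 2 * ρ + 1 < n then 1 else 0) + (if 2 * ρ < n then 1 else 0)) / 2

/-- NA: at most one vertex moves up and at most one moves down -/
def T_NA : Prop := ∀ (V : Type) [Fintype V] [DecidableEq V] (ρ ρ' : V → ℕ),
  Function.Injective ρ → Function.Injective ρ' → (∀ v, ρ v < Fintype.card V) →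
  (∀ v, ρ' v < Fintype.card V) → (∀ v, ρ' v ≤ ρ v + 1) → (∀ v, ρ v ≤ ρ' v + 1) →
  ∀ v w, v ≠ w → ¬ (hh (Fintype.card V) (ρ v) < hh (Fintype.card V) (ρ' v) ∧
    hh (Fintype.card V) (ρ w) < hh (Fintype.card V) (ρ' w))

/-- NB: convexity of the cut form along exchanges -/
def T_NB : Prop := ∀ (V : Type) [Fintype V] (rel : V → V → Prop), (∀ v, ¬ rel v v) →
  ∀ (f g : V → ℝ), (∀ v w, v ≠ w → ¬ (f v < g v ∧ f w < g w) ∧ ¬ (g v < f v ∧ g w < f w)) →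
  ∀ s : ℝ, 0 ≤ s → s ≤ 1 →
    FF rel (fun v => (1 - s) * f v + s * g v) ≤ (1 - s) * FF rel f + s * FF rel g

/-- NC: the cut form of a set -/
def T_NC : Prop := ∀ (V : Type) [Fintype V] [DecidableEq V] (rel : V → V → Prop) (S : Finset V)
  (f : V → ℝ), (∀ v, f v = if v ∈ S then 1 else 0) → FF rel f = cut rel S

/-- ND: sums of the profile -/
def T_ND : Prop := ∀ (V : Type) [Fintype V] [DecidableEq V] (ρ : V → ℕ),
  Function.Injective ρ → (∀ v, ρ v < Fintype.card V) →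
  ∑ v, hh (Fintype.card V) (ρ v) = (Fintype.card V : ℝ) / 2 ∧
  ∑ v, hh (Fintype.card V) (ρ v) * (1 - hh (Fintype.card V) (ρ v)) =
    (if Fintype.card V % 2 = 0 then 0 else 1 / 4)

/-- NV: the variance condition along a segment -/
def T_NV : Prop := ∀ (V : Type) [Fintype V] [DecidableEq V] (ρ ρ' : V → ℕ),
  Function.Injective ρ → Function.Injective ρ' → (∀ v, ρ v < Fintype.card V) →
  (∀ v, ρ' v < Fintype.card V) → (∀ v, ρ' v ≤ ρ v + 1) → (∀ v, ρ v ≤ ρ' v + 1) →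
  ∀ s : ℝ, 0 ≤ s → s ≤ 1 → ∀ f g : V → ℝ, (∀ v, f v = hh (Fintype.card V) (ρ v)) →
    (∀ v, g v = hh (Fintype.card V) (ρ' v)) →
  (∑ v, ((1 - s) * f v + s * g v) - (Fintype.card V : ℝ) / 2) ^ 2 +
      ∑ v, ((1 - s) * f v + s * g v) * (1 - ((1 - s) * f v + s * g v)) ≤ 1 / 2

/-- NW: the variance condition along the two end segments -/
def T_NW : Prop := ∀ (V : Type) [Fintype V] [DecidableEq V] (ρ : V → ℕ),
  Function.Injective ρ → (∀ v, ρ v < Fintype.card V) →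
  ∀ s : ℝ, 0 ≤ s → s ≤ 1 → ∀ f g : V → ℝ,
    ((∀ v, f v = if 2 * ρ v + 1 < Fintype.card V then 1 else 0) ∨
      (∀ v, f v = if 2 * ρ v < Fintype.card V then 1 else 0)) →
    (∀ v, g v = hh (Fintype.card V) (ρ v)) →
  (∑ v, ((1 - s) * f v + s * g v) - (Fintype.card V : ℝ) / 2) ^ 2 +
      ∑ v, ((1 - s) * f v + s * g v) * (1 - ((1 - s) * f v + s * g v)) ≤ 1 / 2

/-- NS: from ranks to nodes -/
def T_NS : Prop := ∀ (V : Type) [Fintype V] [DecidableEq V] (rel : V → V → Prop),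
    (∀ v, ¬ rel v v) → ∀ (K N : ℕ) (ρ : ℕ → V → ℕ), RankSeq N ρ →
    (∀ τ ≤ N, ∀ m : ℕ, ∀ S : Finset V, (∀ v, v ∈ S ↔ ρ τ v < m) → cut rel S ≤ K) →
    ∃ H : ℕ, 1 ≤ H ∧ ∃ ν : ℕ → V → ℝ, NodeSeq rel K H ν

/-- XA: piecewise linear interpolation -/
def T_XA : Prop := ∀ (V : Type) (H : ℕ), 1 ≤ H → ∀ (ν : ℕ → V → ℝ),
    ∃ lam : ℝ → V → ℝ, (∀ v, Continuous (fun t => lam t v)) ∧
      (∀ τ < H, ∀ s : ℝ, 0 ≤ s → s ≤ 1 → ∀ v,
        lam ((τ + s) / H) v = (1 - s) * ν τ v + s * ν (τ + 1) v) ∧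
      (∀ t < 0, lam t = lam 0) ∧ (∀ t, 1 < t → lam t = lam 1)

/-- XD: decomposition of a time -/
def T_XD : Prop := ∀ H : ℕ, 1 ≤ H → ∀ t : ℝ, 0 ≤ t → t ≤ 1 →
    ∃ τ < H, ∃ s : ℝ, 0 ≤ s ∧ s ≤ 1 ∧ t = (τ + s) / H

/-- XB: attributing a relation on a segment to one of its ends -/
def T_XB : Prop := ∀ (V : Type) (f g : V → ℝ),
  (∀ v w, v ≠ w → ¬ (f v < g v ∧ f w < g w) ∧ ¬ (g v < f v ∧ g w < f w)) →
  ∀ v w, v ≠ w → ∀ (s θ η : ℝ), 0 ≤ s → s ≤ 1 → θ < (1 - s) * f v + s * g v →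
    (1 - s) * f w + s * g w ≤ η → (θ < f v ∧ f w ≤ η) ∨ (θ < g v ∧ g w ≤ η)

/-- XC: the order condition along the path -/
def T_XC : Prop := ∀ (V : Type) [Fintype V] (rel : V → V → Prop) (K : ℝ) (H : ℕ), 1 ≤ H →
  ∀ (ν : ℕ → V → ℝ), NodeSeq rel K H ν → ∀ lam : ℝ → V → ℝ,
    (∀ τ < H, ∀ s : ℝ, 0 ≤ s → s ≤ 1 → ∀ v,
        lam ((τ + s) / H) v = (1 - s) * ν τ v + s * ν (τ + 1) v) →
    ∀ v w, v ≠ w → ∀ t1 t2 t3, 0 ≤ t1 → t1 < t2 → t2 < t3 → t3 ≤ 1 →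
    ¬ (lam t2 v < lam t1 v ∧ lam t2 v < lam t3 v ∧ lam t1 w < lam t2 w ∧ lam t3 w < lam t2 w)

/-- XP: from nodes to the path -/
def T_XP : Prop := ∀ (V : Type) [Fintype V] [DecidableEq V] (rel : V → V → Prop),
    (∀ v, ¬ rel v v) → ∀ (K : ℝ) (H : ℕ), 1 ≤ H → ∀ (ν : ℕ → V → ℝ),
    NodeSeq rel K H ν → ∃ lam : ℝ → V → ℝ, IsPath rel K lam

/-- the geometric bound -/
theorem dense_bound (hPB : T_PB) (hRS : T_RS) (hNS : T_NS) (hXP : T_XP)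
    {V : Type} [Fintype V] [DecidableEq V] {rel : V → V → Prop}
    (hsym : ∀ v w, rel v w → rel w v) (hirr : ∀ v, ¬ rel v v) {x y : V → ℝ} (G : GenPos x y)
    {K : ℕ} (hK : ∀ S, IsSplit x y S → cut rel S ≤ K) (M r : ℕ) (hM : 1 ≤ M) (h1 : M ≤ 2 * r)
    (h2 : r ≤ M) :
    (e2 rel univ : ℝ) * r ≤ 2 * M * K + (Fintype.card V : ℝ) ^ 2 * r ^ 2 / (2 * M) -
      Fintype.card V * r + M := by
  obtain ⟨N, ρ, hρ, hs⟩ := hRS V x y G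
  obtain ⟨H, hH, ν, hν⟩ := hNS V rel hirr K N ρ hρ
    (fun τ hτ m S hS => hK S (hs τ hτ m S hS))
  obtain ⟨lam, hlam⟩ := hXP V rel hirr K H hH ν hν
  exact hPB V rel hsym hirr M r hM h1 h2 K lam hlam

end Pool.Agent.H88.KN
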