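import Pool.Agent.H88.KN.Targets

/-!
MP_b5bf4a_co, dense range: steps of the walk, antiperiodicity of extended words (helper88).
-/

namespace Pool.Agent.H88.KN

open Finset

theorem pf_WS : T_WS := by
  intro M b hb i
  unfold wk
  have h1 : ∑ t ∈ range (M + 1), (if b (i - t) = true then (1 : ℤ) else 0) =
      ∑ t ∈ range M, (if b (i + 1 - 1 - t) = true then (1 : ℤ) else 0) +
        (if b (i - M) = true then (1 : ℤ) else 0) := by
    rw [Finset.sum_range_succ]
    congr 1
    apply Finset.sum_congr rfl
    intro t _
    rw [add_sub_cancel_right]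
  have h2 : ∑ t ∈ range (M + 1), (if b (i - t) = true then (1 : ℤ) else 0) =
      ∑ t ∈ range M, (if b (i - 1 - t) = true then (1 : ℤ) else 0) +
        (if b i = true then (1 : ℤ) else 0) := by
    rw [Finset.sum_range_succ']
    congr 1
    · apply Finset.sum_congr rfl
      intro t _
      push_cast
      rw [show i - ((t : ℤ) + 1) = i - 1 - t by ring]
    · simp
  have h3 : b i = !b (i - M) := by
    have := hb (i - M)
    rwa [sub_add_cancel] at this
  have h4 : (if b i = true then (1 : ℤ) else 0) - (if b (i - M) = true then (1 : ℤ) else 0) =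
      (if b i = true then (1 : ℤ) else -1) := by
    rw [h3]
    cases b (i - M) <;> simp
  linarith

theorem pf_EA : T_EA := by
  intro M _ w z
  have hM : 0 < M := Nat.pos_of_ne_zero (NeZero.ne M)
  have hz : z.val < 2 * M := ZMod.val_lt z
  have hMv : ((M : ZMod (2 * M))).val = M := ZMod.val_natCast_of_lt (by omega)
  unfold ext
  by_cases h : z.val < M
  · have h1 : (z + (M : ZMod (2 * M))).val = z.val + M := by
      rw [ZMod.val_add, hMv, Nat.mod_eq_of_lt (by omega)]
    rw [h1, if_pos h, if_neg (by omega), Nat.add_sub_cancel]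
  · have h1 : (z + (M : ZMod (2 * M))).val = z.val - M := by
      rw [ZMod.val_add, hMv]
      have : z.val + M = (z.val - M) + 2 * M := by omega
      rw [this, Nat.add_mod_right, Nat.mod_eq_of_lt (by omega)]
    rw [h1, if_neg h, if_pos (by omega), Bool.not_not]

end Pool.Agent.H88.KN
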