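import Pool.Agent.H88.KN.Targets

/-!
MP_b5bf4a_co, dense range: path with a variance constant (after row XP of helper47; helper88).
-/

namespace Pool.Agent.H88.KN

/-- variance condition with a constant along the segments -/
def VarLe {V : Type} [Fintype V] (κ : ℝ) (H : ℕ) (ν : ℕ → V → ℝ) : Prop :=
  ∀ τ < H, ∀ s : ℝ, 0 ≤ s → s ≤ 1 →
    (∑ v, ((1 - s) * ν τ v + s * ν (τ + 1) v) - (Fintype.card V : ℝ) / 2) ^ 2 +
      ∑ v, ((1 - s) * ν τ v + s * ν (τ + 1) v) * (1 - ((1 - s) * ν τ v + s * ν (τ + 1) v)) ≤ κ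

theorem exists_path_var (hXA : T_XA) (hXD : T_XD) (hXC : T_XC) (hNB : T_NB) {V : Type}
    [Fintype V] [DecidableEq V] {rel : V → V → Prop} (hrel : ∀ v, ¬ rel v v) {K κ : ℝ} {H : ℕ}
    (hH : 1 ≤ H) {ν : ℕ → V → ℝ} (hν : NodeSeq rel K H ν) (hκ : VarLe κ H ν) :
    ∃ lam : ℝ → V → ℝ, IsPath rel K lam ∧ ∀ t, 0 ≤ t → t ≤ 1 →
      (∑ v, lam t v - (Fintype.card V : ℝ) / 2) ^ 2 + ∑ v, lam t v * (1 - lam t v) ≤ κ := by
  have hHpos : (0 : ℝ) < H := by exact_mod_cast hH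
  obtain ⟨lam, hcont, hlam, hneg, hpos⟩ := hXA V H hH ν
  have nn : ∀ τ ≤ H, ∀ x, 0 ≤ ν τ x ∧ ν τ x ≤ 1 := by
    intro τ hτ x
    rcases hν.vals τ hτ x with h | h | h <;> rw [h] <;> norm_num
  have comb : ∀ (a b s : ℝ), 0 ≤ s → s ≤ 1 → 0 ≤ a → a ≤ 1 → 0 ≤ b → b ≤ 1 →
      0 ≤ (1 - s) * a + s * b ∧ (1 - s) * a + s * b ≤ 1 := by
    intro a b s hs hs' ha ha' hb hb'
    constructor
    · have := mul_nonneg (sub_nonneg.2 hs') ha
      have := mul_nonneg hs hb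
      linarith
    · have := mul_le_mul_of_nonneg_left ha' (sub_nonneg.2 hs')
      have := mul_le_mul_of_nonneg_left hb' hs
      linarith
  have mem01 : ∀ t, 0 ≤ t → t ≤ 1 → ∀ v, 0 ≤ lam t v ∧ lam t v ≤ 1 := by
    intro t h0 h1 v
    obtain ⟨τ, hτ, s, hs0, hs1, rfl⟩ := hXD H hH t h0 h1
    rw [hlam τ hτ s hs0 hs1 v]
    exact comb _ _ _ hs0 hs1 (nn _ hτ.le _).1 (nn _ hτ.le _).2 (nn _ hτ _).1 (nn _ hτ _).2
  have l0 : ∀ v, lam 0 v = ν 0 v := by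
    intro v
    have := hlam 0 hH 0 (le_refl _) zero_le_one v
    rw [show (((0 : ℕ) : ℝ) + 0) / H = 0 by simp] at this
    rw [this]; simp
  have l1 : ∀ v, lam 1 v = ν H v := by
    intro v
    have := hlam (H - 1) (by omega) 1 zero_le_one (le_refl _) v
    rw [show (((H - 1 : ℕ) : ℝ) + 1) / H = 1 by
      rw [show ((H - 1 : ℕ) : ℝ) = H - 1 by push_cast [Nat.cast_sub hH]; ring]
      field_simp
      ring] at this
    rw [this, Nat.sub_add_cancel hH]; ring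
  refine ⟨lam, ⟨hcont, ?_, ?_, ?_, ?_, ?_, ?_⟩, ?_⟩
  · intro t v
    rcases lt_or_ge t 0 with h | h
    · rw [hneg t h]
      exact mem01 0 (le_refl _) zero_le_one v
    · rcases lt_or_ge 1 t with h' | h'
      · rw [hpos t h']
        exact mem01 1 zero_le_one (le_refl _) v
      · exact mem01 t h h' v
  · intro v
    rw [l0]
    exact hν.first v
  · intro v
    rw [l0, l1]
    exact hν.last v
  · intro t h0 h1
    obtain ⟨τ, hτ, s, hs0, hs1, rfl⟩ := hXD H hH t h0 h1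
    have e : lam (((τ : ℝ) + s) / H) = fun v => (1 - s) * ν τ v + s * ν (τ + 1) v :=
      funext (hlam τ hτ s hs0 hs1)
    rw [e]
    refine le_trans (hNB V rel hrel (ν τ) (ν (τ + 1)) (hν.seg τ hτ) s hs0 hs1) ?_
    have a := mul_le_mul_of_nonneg_left (hν.cut τ hτ.le) (sub_nonneg.2 hs1)
    have b := mul_le_mul_of_nonneg_left (hν.cut (τ + 1) hτ) hs0
    linarith
  · intro t h0 h1
    obtain ⟨τ, hτ, s, hs0, hs1, rfl⟩ := hXD H hH t h0 h1
    have e : ∀ v, lam (((τ : ℝ) + s) / H) v = (1 - s) * ν τ v + s * ν (τ + 1) v :=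
      hlam τ hτ s hs0 hs1
    simp only [e]
    exact hν.var τ hτ s hs0 hs1
  · exact hXC V rel K H hH ν hν lam hlam
  · intro t h0 h1
    obtain ⟨τ, hτ, s, hs0, hs1, rfl⟩ := hXD H hH t h0 h1
    have e : ∀ v, lam (((τ : ℝ) + s) / H) v = (1 - s) * ν τ v + s * ν (τ + 1) v :=
      hlam τ hτ s hs0 hs1
    simp only [e]
    exact hκ τ hτ s hs0 hs1

end Pool.Agent.H88.KN
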